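import Mathlib

/-! # MP_950ea9_nt: definitions used in the statement -/

namespace Pool.Agent.Work.MP_950ea9_nt

/-- The sum `S(p, r)` of the problem with `p^r` replaced by `N`:
`∑_{k=0}^{N-1} (3k+1) (1/2)_k^3 / k!^3 * 2^(2k)`, where `(x)_k` is the rising factorial
(Mathlib's `ascPochhammer`). -/
noncomputable def S (N : ℕ) : ℚ :=
  ∑ k ∈ Finset.range N,
    (3 * (k : ℚ) + 1) * (((ascPochhammer ℚ k).eval (1 / 2)) ^ 3 / ((Nat.factorial k : ℚ)) ^ 3) * 2 ^ (2 * k)

/-- `x ≡ y (mod p^m)` as in the problem: the reduced denominator of `(x - y)/p^m` is prime to `p`. -/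
def CongModPow (p m : ℕ) (x y : ℚ) : Prop :=
  ((x - y) / (p : ℚ) ^ m).den.Coprime p

end Pool.Agent.Work.MP_950ea9_nt
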