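import Pool.Agent.Work.MP_950ea9_nt.Bern
import Pool.Agent.Work.MP_950ea9_nt.Defs

/-! # MP_950ea9_nt: assembly -/

set_option linter.unusedSectionVars false

open Finset

namespace Pool.Agent.Work.MP_950ea9_nt

lemma pochhammer_half (k : ℕ) :
    (ascPochhammer ℚ k).eval (1 / 2) / (k.factorial : ℚ) = (k.centralBinom : ℚ) / 4 ^ k := by
  induction k with
  | zero => simp
  | succ k ih =>
    rw [ascPochhammer_succ_right, Nat.factorial_succ]
    have hf : ((k.factorial : ℕ) : ℚ) ≠ 0 := by exact_mod_cast k.factorial_ne_zero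
    have h : ((k : ℚ) + 1) ≠ 0 := by positivity
    have h2 : ((k : ℚ) + 1) * ((k + 1).centralBinom : ℚ) = 2 * (2 * k + 1) * (k.centralBinom : ℚ) := by
      exact_mod_cast Nat.succ_mul_centralBinom_succ k
    have h3 : ((k + 1).centralBinom : ℚ) = 2 * (2 * k + 1) * (k.centralBinom : ℚ) / ((k : ℚ) + 1) := by
      field_simp
      linarith
    have h4 : (ascPochhammer ℚ k).eval (1 / 2) = (k.centralBinom : ℚ) / 4 ^ k * (k.factorial : ℚ) := by
      rw [← ih]; field_simp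
    simp only [Polynomial.eval_mul, Polynomial.eval_add, Polynomial.eval_X, Polynomial.eval_natCast]
    rw [h4, h3, pow_succ]
    push_cast
    field_simp
    ring

lemma S_eq (n : ℕ) : S (n + 1) = (n + 1) * G n (-((n : ℚ) + 1)) * u n := by
  rw [← identity, S]
  apply sum_congr rfl
  intro k _
  rw [← div_pow, pochhammer_half, pow_mul]
  norm_num

variable {p : ℕ} [hp : Fact p.Prime]

lemma u_mem (h2 : p ≠ 2) (n : ℕ) : u n ∈ PInt p :=
  sum_mem fun i _ => pow_mem (G_half_mem h2 i n) 2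

lemma b_mem (h2 : p ≠ 2) (n : ℕ) : G n (-((n : ℚ) + 1)) ∈ PInt p := by
  rw [G_neg, div_eq_mul_one_div]
  exact mul_mem (natCast_mem p _) (half_mem h2)

lemma b_mem' (h2 : p ≠ 2) (r : ℕ) : G (p ^ r - 1) (-((p : ℚ) ^ r)) ∈ PInt p := by
  have hM : 1 ≤ p ^ r := Nat.one_le_pow _ _ hp.out.pos
  have h := b_mem (p := p) h2 (p ^ r - 1)
  have hc : (((p ^ r - 1 : ℕ) : ℚ)) + 1 = (p : ℚ) ^ r := by
    rw [Nat.cast_sub hM]; push_cast; ring
  rw [hc] at h
  exact h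

lemma W_one (h3 : 3 < p) :
    Cong p 4 (G (p - 1) (-(p : ℚ)) * u (p - 1)) (1 + 7 / 6 * bernoulli (p - 3) * p ^ 3) := by
  have h2 : p ≠ 2 := by omega
  obtain ⟨h, hh⟩ : ∃ h, p = 2 * h + 1 := by
    rcases hp.out.eq_two_or_odd' with h | h
    · exact absurd h h2
    · exact h
  have c6 : ¬ p ∣ 6 := by
    intro hd
    have h5 : p ∣ 2 * 3 := by simpa using hd
    rcases (Nat.Prime.dvd_mul hp.out).1 h5 with h6 | h6
    · exact absurd (Nat.le_of_dvd (by norm_num) h6) (by omega)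
    · exact absurd (Nat.le_of_dvd (by norm_num) h6) (by omega)
  have i6 : ((6 : ℚ)⁻¹) ∈ PInt p := by
    have := inv_natCast_mem c6
    exact_mod_cast this
  have m2 : (2 : ℚ) ∈ PInt p := by exact_mod_cast natCast_mem p 2
  have m3 : (3 : ℚ) ∈ PInt p := by exact_mod_cast natCast_mem p 3
  have m6 : (6 : ℚ) ∈ PInt p := by exact_mod_cast natCast_mem p 6
  have m7 : (7 : ℚ) ∈ PInt p := by exact_mod_cast natCast_mem p 7
  have hW := W_prime hh h2
  obtain ⟨z1, hz1, e1⟩ := Gh_cong hh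
  obtain ⟨z2, hz2, e2⟩ := hs_rel hh h2
  obtain ⟨z3, hz3, e3⟩ := Bp_K hh
  obtain ⟨z4, hz4, e4⟩ := hs3_cong hh h2
  obtain ⟨z5, hz5, e5⟩ := Bp_bernoulli hh h3
  refine hW.trans ?_
  apply Cong.cancel (c := 6) (by norm_num) i6
  refine ⟨6 * z1 - z2 - 3 * z3 - 2 * z4 + 7 * z5, ?_, ?_⟩
  · exact add_mem (sub_mem (sub_mem (sub_mem (mul_mem m6 hz1) hz2) (mul_mem m3 hz3)) (mul_mem m2 hz4))
      (mul_mem m7 hz5)
  · linear_combination 6 * (p : ℚ) ^ 2 * e1 - (p : ℚ) ^ 2 * e2 - 3 * (p : ℚ) ^ 3 * e3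
      - 2 * (p : ℚ) ^ 3 * e4 + 7 * (p : ℚ) ^ 3 * e5

lemma W_all (h3 : 3 < p) (r : ℕ) (hr : 1 ≤ r) :
    Cong p 4 (G (p ^ r - 1) (-((p : ℚ) ^ r)) * u (p ^ r - 1))
      (1 + 7 / 6 * bernoulli (p - 3) * p ^ 3) := by
  have h2 : p ≠ 2 := by omega
  induction r with
  | zero => omega
  | succ r ih =>
    rcases Nat.eq_zero_or_pos r with rfl | hr0
    · simpa using W_one h3
    · refine Cong.trans ?_ (ih hr0)
      exact Cong.mul (u_mem h2 _) (b_mem' h2 r) (b_step h2 hr0) (u_step h2 hr0)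

/-- Sun's supercongruence for all primes `p > 3` and all `r ≥ 1`. -/
theorem main (p : ℕ) (hp : p.Prime) (h3 : 3 < p) (r : ℕ) (hr : 1 ≤ r) :
    CongModPow p (r + 4) (S (p ^ r))
      ((p : ℚ) ^ r + 7 / 6 * bernoulli (p - 3) * (p : ℚ) ^ (r + 3)) := by
  have : Fact p.Prime := ⟨hp⟩
  have hM : 1 ≤ p ^ r := Nat.one_le_pow _ _ hp.pos
  have hW := W_all h3 r hr
  have hS := S_eq (p ^ r - 1)
  have hc : (((p ^ r - 1 : ℕ) : ℚ)) + 1 = (p : ℚ) ^ r := by
    rw [Nat.cast_sub hM]; push_cast; ring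
  rw [hc, Nat.sub_add_cancel hM] at hS
  obtain ⟨z, hz, e⟩ := hW
  have hp0 : (p : ℚ) ^ (r + 4) ≠ 0 := pow_ne_zero _ p_ne_zero
  have key : (S (p ^ r) - ((p : ℚ) ^ r + 7 / 6 * bernoulli (p - 3) * (p : ℚ) ^ (r + 3))) / (p : ℚ) ^ (r + 4) = z := by
    rw [div_eq_iff hp0, hS]
    linear_combination (p : ℚ) ^ r * e
  rw [CongModPow, key, Nat.coprime_comm, Nat.Prime.coprime_iff_not_dvd hp]
  exact (mem_PInt_iff_den p).1 hz

end Pool.Agent.Work.MP_950ea9_nt
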