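import Pool.Agent.Work.MP_950ea9_nt.PrimeCase

/-! # MP_950ea9_nt: reduction to the Bernoulli number `B_{p-3}` -/

set_option linter.unusedSectionVars false
set_option linter.unusedVariables false

open Finset

namespace Pool.Agent.Work.MP_950ea9_nt

variable {p : ℕ} [hp : Fact p.Prime]

lemma low_not_dvd {b : ℕ} (hb : b ∈ Ico 1 p) : ¬ p ∣ b := by
  rw [mem_Ico] at hb
  intro hd
  have := Nat.le_of_dvd (by omega) hd
  omega

lemma low_inv_mem {b : ℕ} (hb : b ∈ Ico 1 p) : ((b : ℚ)⁻¹) ∈ PInt p :=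
  inv_natCast_mem (low_not_dvd hb)

lemma low_ne {b : ℕ} (hb : b ∈ Ico 1 p) : (b : ℚ) ≠ 0 := by
  rw [mem_Ico] at hb
  have : b ≠ 0 := by omega
  exact_mod_cast this

lemma low_inner_mem {b : ℕ} (hb : b ≤ p) : ∑ a ∈ Ico 1 b, (a : ℚ)⁻¹ ∈ PInt p := by
  apply sum_mem
  intro a ha
  apply low_inv_mem
  rw [mem_Ico] at *
  omega

/-- `∑_{a<b<p} 1/(a b^2)` -/
def Bp (p : ℕ) : ℚ := ∑ b ∈ Ico 1 p, ((b : ℚ)⁻¹) ^ 2 * ∑ a ∈ Ico 1 b, (a : ℚ)⁻¹

lemma Bp_mem : Bp p ∈ PInt p := by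
  apply sum_mem
  intro b hb
  exact mul_mem (pow_mem (low_inv_mem hb) 2) (low_inner_mem (mem_Ico.1 hb).2.le)

lemma harm_zero {h : ℕ} (hh : p = 2 * h + 1) : Cong p 1 (∑ a ∈ Ico 1 p, (a : ℚ)⁻¹) 0 := by
  rw [sum_low_high hh (fun t : ℕ => ((t : ℚ)⁻¹))]
  refine ⟨Gh p h, Gh_mem hh, ?_⟩
  rw [sub_zero, pow_one, Gh, mul_sum]
  apply sum_congr rfl
  intro b hb
  have h3 := low_ne_zero hh hb
  have h4 := psub_ne_zero hh hb
  have hb' := mem_Ico.1 hb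
  rw [Nat.cast_sub (by omega)]
  field_simp
  ring

lemma harm_reflect {h : ℕ} (hh : p = 2 * h + 1) {b : ℕ} (hb : b ∈ Ico 1 p) :
    Cong p 1 (∑ a ∈ Ico 1 (p - b), (a : ℚ)⁻¹) (∑ a ∈ Ico 1 b, (a : ℚ)⁻¹ + (b : ℚ)⁻¹) := by
  have hb' := mem_Ico.1 hb
  have h1 := harm_zero hh
  have h2 : ∑ a ∈ Ico 1 p, (a : ℚ)⁻¹ = ∑ a ∈ Ico 1 (p - b), (a : ℚ)⁻¹ + ∑ a ∈ Ico (p - b) p, (a : ℚ)⁻¹ := by
    rw [sum_Ico_consecutive _ (by omega) (by omega)]
  have h3 : ∑ a ∈ Ico (p - b) p, (a : ℚ)⁻¹ = ∑ a ∈ Ico 1 (b + 1), ((p : ℚ) - a)⁻¹ := by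
    apply sum_nbij' (fun t => p - t) (fun t => p - t)
    · intro t; simp only [mem_Ico]; omega
    · intro t; simp only [mem_Ico]; omega
    · intro t; simp only [mem_Ico]; omega
    · intro t; simp only [mem_Ico]; omega
    · intro t ht
      simp only [mem_Ico] at ht
      rw [Nat.cast_sub (by omega)]
      congr 1; ring
  have h4 : Cong p 1 (∑ a ∈ Ico 1 (b + 1), ((p : ℚ) - a)⁻¹) (-(∑ a ∈ Ico 1 b, (a : ℚ)⁻¹ + (b : ℚ)⁻¹)) := by
    rw [← sum_Ico_succ_top hb'.1 (fun a : ℕ => (a : ℚ)⁻¹), ← sum_neg_distrib]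
    apply Cong.sum
    intro a ha
    have ha' := mem_Ico.1 ha
    have hap : a ∈ Ico 1 p := by rw [mem_Ico]; omega
    have hap' : p - a ∈ Ico 1 p := by rw [mem_Ico]; omega
    have i1 := low_inv_mem hap
    have i2 := low_inv_mem hap'
    have n1 := low_ne hap
    have n2 := low_ne hap'
    rw [Nat.cast_sub (by omega)] at i2 n2
    refine ⟨(a : ℚ)⁻¹ * ((p : ℚ) - a)⁻¹, mul_mem i1 i2, ?_⟩
    field_simp
    ring
  rw [h2, h3] at h1
  have h5 := h1.sub h4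
  refine (Cong.of_eq ?_).trans (h5.trans (Cong.of_eq ?_))
  · ring
  · ring

lemma Bp_K {h : ℕ} (hh : p = 2 * h + 1) : Cong p 1 (Bp p) (2 * K h + hs h 3) := by
  rw [Bp, sum_low_high hh (fun b : ℕ => ((b : ℚ)⁻¹) ^ 2 * ∑ a ∈ Ico 1 b, (a : ℚ)⁻¹)]
  have e : 2 * K h + hs h 3 = ∑ b ∈ Ico 1 (h + 1), (((b : ℚ)⁻¹) ^ 2 * ∑ a ∈ Ico 1 b, (a : ℚ)⁻¹
      + ((b : ℚ)⁻¹) ^ 2 * (∑ a ∈ Ico 1 b, (a : ℚ)⁻¹ + (b : ℚ)⁻¹)) := by
    rw [K, hs, mul_sum, ← sum_add_distrib]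
    apply sum_congr rfl
    intro b _
    ring
  rw [e]
  apply Cong.sum
  intro b hb
  have hb' := mem_Ico.1 hb
  have hbp : b ∈ Ico 1 p := by rw [mem_Ico]; omega
  have hbp' : p - b ∈ Ico 1 p := by rw [mem_Ico]; omega
  apply Cong.add (Cong.refl _ _)
  have i1 := low_inv_mem hbp
  have i2 := low_inv_mem hbp'
  have n1 := low_ne hbp
  have n2 := low_ne hbp'
  have hin := low_inner_mem (p := p) (show b ≤ p by omega)
  have hin' := low_inner_mem (p := p) (show p - b ≤ p by omega)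
  have hsq : Cong p 1 ((((p - b : ℕ) : ℚ)⁻¹) ^ 2) (((b : ℚ)⁻¹) ^ 2) := by
    have hc : Cong p 1 (((p - b : ℕ) : ℚ)⁻¹) (-(b : ℚ)⁻¹) := by
      rw [Nat.cast_sub (by omega)] at i2 n2 ⊢
      refine ⟨(b : ℚ)⁻¹ * ((p : ℚ) - b)⁻¹, mul_mem i1 i2, ?_⟩
      field_simp
      ring
    have := hc.sq (neg_mem i1)
    simpa using this
  exact Cong.mul hin' (pow_mem i1 2) hsq (harm_reflect hh hbp)

lemma H2_cong {h : ℕ} (hh : p = 2 * h + 1) :
    Cong p 2 (∑ t ∈ Ico 1 p, ((t : ℚ)⁻¹) ^ 2) (2 * (hs h 2 + p * hs h 3)) := by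
  rw [sum_low_high hh (fun t : ℕ => ((t : ℚ)⁻¹) ^ 2)]
  have e : 2 * (hs h 2 + p * hs h 3) = ∑ b ∈ Ico 1 (h + 1), (((b : ℚ)⁻¹) ^ 2 +
      (((b : ℚ)⁻¹) ^ 2 + 2 * p * ((b : ℚ)⁻¹) ^ 3)) := by
    rw [hs, hs, sum_add_distrib, sum_add_distrib, ← mul_sum]
    ring
  rw [e]
  apply Cong.sum
  intro b hb
  have hb' := mem_Ico.1 hb
  have h3 := low_ne_zero hh hb
  have h4 := psub_ne_zero hh hb
  apply Cong.add (Cong.refl _ _)
  rw [Nat.cast_sub (by omega)]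
  refine ⟨(3 * b - 2 * p) * (((b : ℚ)⁻¹) ^ 3 * (((p : ℚ) - b)⁻¹) ^ 2), ?_, ?_⟩
  · refine mul_mem (sub_mem (mul_mem ?_ (natCast_mem p b)) (mul_mem ?_ (natCast_mem p p)))
      (mul_mem (pow_mem (inv_low_mem hh hb) 3) (pow_mem (inv_psub_mem hh hb) 2))
    · exact_mod_cast natCast_mem p 3
    · exact_mod_cast natCast_mem p 2
  · field_simp
    ring

lemma choose_sq (k : ℕ) (hk : 1 ≤ k) (hkp : k < p) :
    ((p.choose k : ℕ) : ℚ) ^ 2 = (p : ℚ) ^ 2 * (((k : ℚ)⁻¹) ^ 2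
      * ∏ l ∈ Ico 1 k, (1 + (p : ℚ) * (-(2 * (l : ℚ)⁻¹) + p * ((l : ℚ)⁻¹) ^ 2))) := by
  induction k with
  | zero => omega
  | succ k ih =>
    rcases Nat.eq_zero_or_pos k with rfl | hk0
    · simp
    · have ihk := ih hk0 (by omega)
      have h1 := Nat.choose_succ_right_eq p k
      have h2 : ((p.choose (k + 1) : ℕ) : ℚ) * ((k : ℚ) + 1) = (p.choose k : ℕ) * ((p : ℚ) - k) := by
        rw [← Nat.cast_sub (by omega)]
        exact_mod_cast h1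
      have hk1 : ((k : ℚ) + 1) ≠ 0 := by positivity
      have hk2 : (k : ℚ) ≠ 0 := by positivity
      rw [prod_Ico_succ_top hk0]
      have h3 : ((p.choose (k + 1) : ℕ) : ℚ) = (p.choose k : ℕ) * ((p : ℚ) - k) / ((k : ℚ) + 1) := by
        field_simp
        exact h2
      rw [h3, div_pow, mul_pow, ihk]
      push_cast
      field_simp
      ring

lemma choose_sq_cong (k : ℕ) (hk : 1 ≤ k) (hkp : k < p) :
    Cong p 4 (((p.choose k : ℕ) : ℚ) ^ 2)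
      ((p : ℚ) ^ 2 * (((k : ℚ)⁻¹) ^ 2 - 2 * p * (((k : ℚ)⁻¹) ^ 2 * ∑ a ∈ Ico 1 k, (a : ℚ)⁻¹))) := by
  rw [choose_sq k hk hkp]
  refine Cong.scale (j := 2) (k := 2) ?_
  have hkm : k ∈ Ico 1 p := by rw [mem_Ico]; omega
  have hkI := low_inv_mem hkm
  have h2I : (2 : ℚ) ∈ PInt p := by exact_mod_cast natCast_mem p 2
  have hpc : Cong p 1 (p : ℚ) 0 := ⟨1, one_mem _, by ring⟩
  have hlm : ∀ l ∈ Ico 1 k, ((l : ℚ)⁻¹) ∈ PInt p := by
    intro l hl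
    apply low_inv_mem
    rw [mem_Ico] at *
    omega
  have h1 := prod_expand (j := 1) (Ico 1 k) (fun l : ℕ => -(2 * (l : ℚ)⁻¹) + p * ((l : ℚ)⁻¹) ^ 2) (p : ℚ) hpc
    (fun l hl => add_mem (neg_mem (mul_mem h2I (hlm l hl))) (mul_mem (natCast_mem p p) (pow_mem (hlm l hl) 2)))
  have h2 : Cong p 2 (1 + (p : ℚ) * ∑ l ∈ Ico 1 k, (-(2 * (l : ℚ)⁻¹) + p * ((l : ℚ)⁻¹) ^ 2))
      (1 - 2 * p * ∑ a ∈ Ico 1 k, (a : ℚ)⁻¹) := by
    refine ⟨∑ l ∈ Ico 1 k, ((l : ℚ)⁻¹) ^ 2, sum_mem fun l hl => pow_mem (hlm l hl) 2, ?_⟩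
    rw [sum_add_distrib, sum_neg_distrib, ← mul_sum, ← mul_sum]
    ring
  have h3 := Cong.mul_left (pow_mem hkI 2) (h1.trans h2)
  refine h3.trans (Cong.of_eq ?_)
  ring

/-- `h_3 ≡ -2 Bp (mod p)` from `∑ C(p,k)^2 = C(2p,p)` -/
lemma hs3_cong {h : ℕ} (hh : p = 2 * h + 1) (h2 : p ≠ 2) : Cong p 1 (hs h 3) (-(2 * Bp p)) := by
  have hhalf := half_mem (p := p) h2
  have h2I : (2 : ℚ) ∈ PInt p := by exact_mod_cast natCast_mem p 2
  have hpI := natCast_mem p p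
  have hp1 : 1 ≤ p := hp.out.one_lt.le
  have hv := Nat.sum_range_choose_sq p
  have hv2 : ∑ i ∈ range (p + 1), ((p.choose i : ℕ) : ℚ) ^ 2 = ((2 * p).choose p : ℕ) := by
    exact_mod_cast hv
  have hG := G_neg (p - 1)
  have hc : (((p - 1 : ℕ) : ℚ)) + 1 = (p : ℚ) := by
    rw [Nat.cast_sub hp1]; push_cast; ring
  rw [hc, Nat.sub_add_cancel hp1, Nat.centralBinom] at hG
  have hsplit : ∑ i ∈ range (p + 1), ((p.choose i : ℕ) : ℚ) ^ 2
      = 2 + ∑ k ∈ Ico 1 p, ((p.choose k : ℕ) : ℚ) ^ 2 := by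
    rw [sum_range_succ, Nat.choose_self]
    have : range p = insert 0 (Ico 1 p) := by
      ext t; simp only [mem_range, mem_insert, mem_Ico]; omega
    rw [this, sum_insert (by simp)]
    simp
    ring
  have hsum : Cong p 4 (∑ k ∈ Ico 1 p, ((p.choose k : ℕ) : ℚ) ^ 2)
      ((p : ℚ) ^ 2 * (2 * (hs h 2 + p * hs h 3) - 2 * p * Bp p)) := by
    have h3 := Cong.sum (k := 4) (Ico 1 p) (fun k hk =>
      choose_sq_cong k (mem_Ico.1 hk).1 (mem_Ico.1 hk).2)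
    refine h3.trans ?_
    rw [← mul_sum, sum_sub_distrib, ← mul_sum]
    exact Cong.scale (j := 2) (k := 2) ((H2_cong hh).sub (Cong.refl _ _))
  have hx : Cong p 2 (-(p : ℚ) * (-(p : ℚ) - p)) 0 := ⟨2, h2I, by ring⟩
  have h7 := G_prime_expand hh (-(p : ℚ)) hx
  have h8 : Cong p 4 ((p : ℚ) ^ 2 * Gh p h) ((p : ℚ) ^ 2 * (-(hs h 2 + p * hs h 3))) :=
    Cong.scale (j := 2) (k := 2) (Gh_cong hh)
  -- assemble
  obtain ⟨z1, hz1, e1⟩ := hsum
  obtain ⟨z2, hz2, e2⟩ := h7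
  obtain ⟨z3, hz3, e3⟩ := h8
  have h9 : Cong p 2 (6 * (hs h 2 + p * hs h 3)) (2 * p * Bp p) := by
    refine ⟨2 * z2 + 4 * z3 - z1, sub_mem (add_mem (mul_mem h2I hz2) (mul_mem ?_ hz3)) hz1, ?_⟩
    · exact_mod_cast natCast_mem p 4
    · have hp2 : (p : ℚ) ^ 2 ≠ 0 := pow_ne_zero _ p_ne_zero
      apply mul_left_cancel₀ hp2
      linear_combination hv2 - hsplit - 2 * hG - e1 + 2 * e2 + 4 * e3
  have h10 := hs_rel hh h2
  have h11 : Cong p (1 + 1) ((p : ℚ) ^ 1 * hs h 3) ((p : ℚ) ^ 1 * (-(2 * Bp p))) := by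
    obtain ⟨w, hw, ew⟩ := h9
    obtain ⟨w', hw', ew'⟩ := h10
    refine ⟨w' - w, sub_mem hw' hw, ?_⟩
    linear_combination ew' - ew
  exact Cong.unscale h11

/-! ### Faulhaber -/

lemma bernoulli_mem (i : ℕ) (hi : i + 1 < p) : bernoulli i ∈ PInt p := by
  induction i using Nat.strong_induction_on with
  | _ i ih =>
    have h := sum_bernoulli (i + 1)
    rw [sum_range_succ, Nat.choose_succ_self_right] at h
    have hd : ¬ p ∣ (i + 1) := by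
      intro hd
      have := Nat.le_of_dvd (by omega) hd
      omega
    have hne : (((i + 1 : ℕ) : ℚ)) ≠ 0 := by
      have : i + 1 ≠ 0 := by omega
      exact_mod_cast this
    have h2 : bernoulli i = (((i + 1 : ℕ) : ℚ))⁻¹ * ((if i + 1 = 1 then 1 else 0)
        - ∑ k ∈ range i, ((i + 1).choose k : ℚ) * bernoulli k) := by
      rw [← h]
      field_simp
      ring
    rw [h2]
    apply mul_mem (inv_natCast_mem hd)
    apply sub_mem
    · split_ifs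
      · exact one_mem _
      · exact zero_mem _
    · apply sum_mem
      intro k hk
      rw [mem_range] at hk
      exact mul_mem (natCast_mem p _) (ih k hk (by omega))

lemma natCast_cong_zero {n : ℕ} (h : p ∣ n) : Cong p 1 (n : ℚ) 0 := by
  obtain ⟨c, rfl⟩ := h
  exact ⟨(c : ℚ), natCast_mem p c, by push_cast; ring⟩

lemma pow_sum_zero {e : ℕ} (he0 : 0 < e) (he : e < p - 1) :
    Cong p 1 (∑ b ∈ Ico 1 p, (b : ℚ) ^ e) 0 := by
  have h1 : (∑ b ∈ Ico 1 p, (b : ZMod p) ^ e) = 0 := by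
    have hbij : (∑ v ∈ Ico 1 p, (v : ZMod p) ^ e) = ∑ u : (ZMod p)ˣ, (u : ZMod p) ^ e :=
      Finset.sum_bij'
        (fun v hv ↦ Units.mk0 (v : ZMod p) (mt (ZMod.natCast_eq_zero_iff v p).mp (low_not_dvd hv)))
        (fun u _ ↦ (u : ZMod p).val)
        (fun _ _ ↦ Finset.mem_univ _)
        (fun u _ ↦ by
          rw [mem_Ico]
          refine ⟨Nat.pos_of_ne_zero ?_, ZMod.val_lt _⟩
          rw [Ne, ZMod.val_eq_zero]
          exact u.ne_zero)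
        (fun v hv ↦ by simp [ZMod.val_cast_of_lt (Finset.mem_Ico.mp hv).2])
        (fun u _ ↦ Units.ext (ZMod.natCast_zmod_val _))
        (fun _ _ ↦ rfl)
    rw [hbij, FiniteField.sum_pow_units, ZMod.card]
    rw [if_neg]
    intro hd
    have := Nat.le_of_dvd he0 hd
    omega
  have h2 : p ∣ ∑ b ∈ Ico 1 p, b ^ e := by
    rw [← ZMod.natCast_eq_zero_iff]
    push_cast
    exact h1
  have h3 := natCast_cong_zero h2
  push_cast at h3
  exact h3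

lemma fermat {b : ℕ} (hb : b ∈ Ico 1 p) : Cong p 1 ((b : ℚ) ^ (p - 1)) 1 := by
  have hc : Nat.Coprime b p := by
    rw [Nat.coprime_comm, Nat.Prime.coprime_iff_not_dvd hp.out]
    exact low_not_dvd hb
  have h1 := Nat.ModEq.pow_totient hc
  rw [Nat.totient_prime hp.out] at h1
  have h2 : p ∣ b ^ (p - 1) - 1 := (Nat.modEq_iff_dvd' (Nat.one_le_pow _ _ (mem_Ico.1 hb).1)).1 h1.symm
  obtain ⟨c, hc⟩ := h2
  have h3 : b ^ (p - 1) = p * c + 1 := by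
    have := Nat.one_le_pow (p - 1) b (mem_Ico.1 hb).1
    omega
  refine ⟨(c : ℚ), natCast_mem p c, ?_⟩
  have h4 : (b : ℚ) ^ (p - 1) = p * c + 1 := by exact_mod_cast h3
  rw [h4]; ring

lemma inv_cong_pow {b : ℕ} (hb : b ∈ Ico 1 p) : Cong p 1 ((b : ℚ)⁻¹) ((b : ℚ) ^ (p - 2)) := by
  have h1 := fermat hb
  have hne := low_ne hb
  have h2 := Cong.mul_left (low_inv_mem hb) h1.symm
  have h3 : (b : ℚ)⁻¹ * (b : ℚ) ^ (p - 1) = (b : ℚ) ^ (p - 2) := by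
    have : p - 1 = (p - 2) + 1 := by have := hp.out.two_le; omega
    rw [this, pow_succ]
    field_simp
  rw [mul_one, h3] at h2
  exact h2

lemma Bp_bernoulli {h : ℕ} (hh : p = 2 * h + 1) (h3 : 3 < p) :
    Cong p 1 (Bp p) (bernoulli (p - 3)) := by
  have hpm1 : ((p : ℚ) - 1) ≠ 0 := by
    have : (3 : ℚ) < p := by exact_mod_cast h3
    intro h; linarith
  have hpm1I : (((p : ℚ) - 1)⁻¹) ∈ PInt p := by
    have : ¬ p ∣ (p - 1) := low_not_dvd (by rw [mem_Ico]; omega)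
    have h := inv_natCast_mem this
    rw [Nat.cast_sub (by omega)] at h
    simpa using h
  -- step 1: replace inner sum by Faulhaber polynomial
  let c : ℕ → ℚ := fun i => bernoulli i * ((p - 1).choose i) * ((p : ℚ) - 1)⁻¹
  have hcI : ∀ i ∈ range (p - 1), c i ∈ PInt p := by
    intro i hi
    rw [mem_range] at hi
    exact mul_mem (mul_mem (bernoulli_mem i (by omega)) (natCast_mem p _)) hpm1I
  have hinner : ∀ b ∈ Ico 1 p, Cong p 1 (∑ a ∈ Ico 1 b, (a : ℚ)⁻¹)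
      (∑ i ∈ range (p - 1), c i * (b : ℚ) ^ (p - 1 - i)) := by
    intro b hb
    have hb' := mem_Ico.1 hb
    have e1 : ∑ i ∈ range (p - 1), c i * (b : ℚ) ^ (p - 1 - i) = ∑ a ∈ range b, (a : ℚ) ^ (p - 2) := by
      rw [sum_range_pow]
      have : p - 2 + 1 = p - 1 := by omega
      rw [this]
      apply sum_congr rfl
      intro i _
      simp only [c]
      have h4 : (((p - 2 : ℕ) : ℚ)) + 1 = (p : ℚ) - 1 := by
        rw [Nat.cast_sub (by omega)]; push_cast; ring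
      rw [h4, div_eq_mul_inv]
      ring
    have e2 : ∑ a ∈ range b, (a : ℚ) ^ (p - 2) = ∑ a ∈ Ico 1 b, (a : ℚ) ^ (p - 2) := by
      have : range b = insert 0 (Ico 1 b) := by
        ext t; simp only [mem_range, mem_insert, mem_Ico]; omega
      rw [this, sum_insert (by simp)]
      have h0 : p - 2 ≠ 0 := by omega
      simp [h0]
    rw [e1, e2]
    apply Cong.sum
    intro a ha
    apply inv_cong_pow
    rw [mem_Ico] at *
    omega
  have h1 : Cong p 1 (Bp p) (∑ b ∈ Ico 1 p, ((b : ℚ)⁻¹) ^ 2 * ∑ i ∈ range (p - 1), c i * (b : ℚ) ^ (p - 1 - i)) := by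
    rw [Bp]
    apply Cong.sum
    intro b hb
    exact Cong.mul_left (pow_mem (low_inv_mem hb) 2) (hinner b hb)
  refine h1.trans ?_
  have e3 : ∑ b ∈ Ico 1 p, ((b : ℚ)⁻¹) ^ 2 * ∑ i ∈ range (p - 1), c i * (b : ℚ) ^ (p - 1 - i)
      = ∑ i ∈ range (p - 1), c i * ∑ b ∈ Ico 1 p, ((b : ℚ)⁻¹) ^ 2 * (b : ℚ) ^ (p - 1 - i) := by
    simp_rw [mul_sum]
    rw [sum_comm]
    apply sum_congr rfl
    intro i _
    apply sum_congr rfl
    intro b _
    ring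
  rw [e3]
  -- split off i = p-2 and i = p-3
  have hp12 : p - 1 = (p - 3) + 1 + 1 := by omega
  have hrange : ∑ i ∈ range (p - 1), c i * ∑ b ∈ Ico 1 p, ((b : ℚ)⁻¹) ^ 2 * (b : ℚ) ^ (p - 1 - i)
      = ∑ i ∈ range (p - 3), c i * ∑ b ∈ Ico 1 p, ((b : ℚ)⁻¹) ^ 2 * (b : ℚ) ^ (p - 1 - i)
        + c (p - 3) * ∑ b ∈ Ico 1 p, ((b : ℚ)⁻¹) ^ 2 * (b : ℚ) ^ (p - 1 - (p - 3))
        + c (p - 3 + 1) * ∑ b ∈ Ico 1 p, ((b : ℚ)⁻¹) ^ 2 * (b : ℚ) ^ (p - 1 - (p - 3 + 1)) := by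
    conv_lhs => rw [hp12, sum_range_succ, sum_range_succ]
    rw [← hp12]
  rw [hrange]
  have hzero : Cong p 1 (∑ i ∈ range (p - 3), c i * ∑ b ∈ Ico 1 p, ((b : ℚ)⁻¹) ^ 2 * (b : ℚ) ^ (p - 1 - i)) 0 := by
    have h5 : Cong p 1 (∑ i ∈ range (p - 3), c i * ∑ b ∈ Ico 1 p, ((b : ℚ)⁻¹) ^ 2 * (b : ℚ) ^ (p - 1 - i))
        (∑ i ∈ range (p - 3), (0 : ℚ)) := by
      apply Cong.sum
      intro i hi
      rw [mem_range] at hi
      have e4 : ∑ b ∈ Ico 1 p, ((b : ℚ)⁻¹) ^ 2 * (b : ℚ) ^ (p - 1 - i) = ∑ b ∈ Ico 1 p, (b : ℚ) ^ (p - 3 - i) := by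
        apply sum_congr rfl
        intro b hb
        have hne := low_ne hb
        have : p - 1 - i = (p - 3 - i) + 2 := by omega
        rw [this, pow_add]
        field_simp
      rw [e4]
      have h6 := Cong.mul_left (hcI i (by rw [mem_range]; omega)) (pow_sum_zero (p := p) (e := p - 3 - i) (by omega) (by omega))
      simpa using h6
    simpa using h5
  have hlast : Cong p 1 (c (p - 3 + 1) * ∑ b ∈ Ico 1 p, ((b : ℚ)⁻¹) ^ 2 * (b : ℚ) ^ (p - 1 - (p - 3 + 1))) 0 := by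
    have e5 : ∑ b ∈ Ico 1 p, ((b : ℚ)⁻¹) ^ 2 * (b : ℚ) ^ (p - 1 - (p - 3 + 1)) = ∑ b ∈ Ico 1 p, (b : ℚ)⁻¹ := by
      apply sum_congr rfl
      intro b hb
      have hne := low_ne hb
      have : p - 1 - (p - 3 + 1) = 1 := by omega
      rw [this]
      field_simp
    rw [e5]
    have h6 := Cong.mul_left (hcI (p - 3 + 1) (by rw [mem_range]; omega)) (harm_zero hh)
    simpa using h6
  have hmid : Cong p 1 (c (p - 3) * ∑ b ∈ Ico 1 p, ((b : ℚ)⁻¹) ^ 2 * (b : ℚ) ^ (p - 1 - (p - 3))) (bernoulli (p - 3)) := by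
    have e6 : ∑ b ∈ Ico 1 p, ((b : ℚ)⁻¹) ^ 2 * (b : ℚ) ^ (p - 1 - (p - 3)) = (p : ℚ) - 1 := by
      have : ∀ b ∈ Ico 1 p, ((b : ℚ)⁻¹) ^ 2 * (b : ℚ) ^ (p - 1 - (p - 3)) = 1 := by
        intro b hb
        have hne := low_ne hb
        have : p - 1 - (p - 3) = 2 := by omega
        rw [this]
        field_simp
      rw [sum_congr rfl this]
      simp
      rw [Nat.cast_sub (by omega)]
      simp
    rw [e6]
    have e7 : c (p - 3) * ((p : ℚ) - 1) = bernoulli (p - 3) * ((p - 1).choose (p - 3)) := by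
      simp only [c]
      field_simp
    rw [e7]
    have e8 : (((p - 1).choose (p - 3) : ℕ) : ℚ) = ((p : ℚ) - 1) * ((p : ℚ) - 2) / 2 := by
      have h9 : (p - 1).choose (p - 3) = (p - 1).choose 2 := by
        rw [← Nat.choose_symm_of_eq_add]; omega
      rw [h9, Nat.cast_choose_two, Nat.cast_sub (by omega)]
      push_cast
      ring
    rw [e8]
    have hB := bernoulli_mem (p := p) (p - 3) (by omega)
    have hhalf := half_mem (p := p) (by omega)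
    refine ⟨bernoulli (p - 3) * ((1 / 2) * ((p : ℚ) - 3)), mul_mem hB (mul_mem hhalf (sub_mem (natCast_mem p p) ?_)), ?_⟩
    · exact_mod_cast natCast_mem p 3
    · ring
  have := (hzero.add hmid).add hlast
  simpa using this

end Pool.Agent.Work.MP_950ea9_nt
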