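import Mathlib

/-! # MP_950ea9_nt: congruences between rational numbers modulo powers of a prime -/

open Finset

namespace Pool.Agent.Work.MP_950ea9_nt

variable (p : ℕ) [hp : Fact p.Prime]

/-- the `p`-integral rationals -/
def PInt : Subring ℚ where
  carrier := {x | padicNorm p x ≤ 1}
  mul_mem' := by
    intro a b ha hb
    simp only [Set.mem_ofPred_eq] at *
    rw [padicNorm.mul]
    exact mul_le_one₀ ha (padicNorm.nonneg _) hb
  one_mem' := by simp
  add_mem' := by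
    intro a b ha hb
    simp only [Set.mem_ofPred_eq] at *
    exact (padicNorm.nonarchimedean).trans (max_le ha hb)
  zero_mem' := by simp
  neg_mem' := by
    intro a ha
    simpa using ha

lemma mem_PInt {x : ℚ} : x ∈ PInt p ↔ padicNorm p x ≤ 1 := Iff.rfl

lemma mem_PInt_iff_den {x : ℚ} : x ∈ PInt p ↔ ¬ p ∣ x.den := by
  rw [mem_PInt]
  have hx : x = (x.num : ℚ) / (x.den : ℚ) := (Rat.num_div_den x).symm
  have hnorm : padicNorm p x = padicNorm p (x.num : ℚ) / padicNorm p (x.den : ℚ) := by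
    conv_lhs => rw [hx]
    exact padicNorm.div _ _
  constructor
  · intro h hd
    have h1 : padicNorm p (x.den : ℚ) < 1 := (padicNorm.nat_lt_one_iff (p := p) _).2 hd
    have h2 : padicNorm p (x.num : ℚ) = 1 := by
      rw [padicNorm.int_eq_one_iff]
      intro h3
      have h4 : p ∣ x.num.natAbs := Int.natCast_dvd.1 h3
      have h5 := x.reduced
      have h6 : p ∣ 1 := by
        rw [← h5]
        exact Nat.dvd_gcd h4 hd
      exact hp.out.one_lt.ne' (Nat.dvd_one.1 h6)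
    have h0 : 0 < padicNorm p (x.den : ℚ) := by
      apply lt_of_le_of_ne (padicNorm.nonneg _)
      intro h
      have := padicNorm.zero_of_padicNorm_eq_zero h.symm
      exact x.den_ne_zero (by exact_mod_cast this)
    rw [hnorm, h2, div_le_one h0] at h
    linarith
  · intro hd
    have h1 : padicNorm p (x.den : ℚ) = 1 := (padicNorm.nat_eq_one_iff (p := p) _).2 hd
    rw [hnorm, h1, div_one]
    exact padicNorm.of_int _

lemma natCast_mem (n : ℕ) : (n : ℚ) ∈ PInt p := _root_.natCast_mem _ n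

lemma intCast_mem (n : ℤ) : (n : ℚ) ∈ PInt p := _root_.intCast_mem _ n

variable {p}

lemma inv_natCast_mem {n : ℕ} (h : ¬ p ∣ n) : ((n : ℚ)⁻¹) ∈ PInt p := by
  rw [mem_PInt, inv_eq_one_div, padicNorm.div, padicNorm.one, (padicNorm.nat_eq_one_iff (p := p) n).2 h, div_one]

lemma inv_intCast_mem {n : ℤ} (h : ¬ (p : ℤ) ∣ n) : ((n : ℚ)⁻¹) ∈ PInt p := by
  rw [mem_PInt, inv_eq_one_div, padicNorm.div, padicNorm.one, (padicNorm.int_eq_one_iff (p := p) n).2 h, div_one]

variable (p)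

/-- congruence modulo `p^k` in the ring of `p`-integral rationals -/
def Cong (k : ℕ) (x y : ℚ) : Prop := ∃ z ∈ PInt p, x - y = (p : ℚ) ^ k * z

variable {p}

lemma p_ne_zero : (p : ℚ) ≠ 0 := by exact_mod_cast hp.out.ne_zero

namespace Cong

lemma refl (k : ℕ) (x : ℚ) : Cong p k x x := ⟨0, zero_mem _, by ring⟩

lemma of_eq {k : ℕ} {x y : ℚ} (h : x = y) : Cong p k x y := h ▸ refl k x

lemma symm {k : ℕ} {x y : ℚ} (h : Cong p k x y) : Cong p k y x := by
  obtain ⟨z, hz, e⟩ := h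
  exact ⟨-z, neg_mem hz, by linear_combination -e⟩

lemma trans {k : ℕ} {x y w : ℚ} (h : Cong p k x y) (h' : Cong p k y w) : Cong p k x w := by
  obtain ⟨z, hz, e⟩ := h
  obtain ⟨z', hz', e'⟩ := h'
  exact ⟨z + z', add_mem hz hz', by linear_combination e + e'⟩

lemma add {k : ℕ} {x y x' y' : ℚ} (h : Cong p k x y) (h' : Cong p k x' y') :
    Cong p k (x + x') (y + y') := by
  obtain ⟨z, hz, e⟩ := h
  obtain ⟨z', hz', e'⟩ := h'
  exact ⟨z + z', add_mem hz hz', by linear_combination e + e'⟩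

lemma sub {k : ℕ} {x y x' y' : ℚ} (h : Cong p k x y) (h' : Cong p k x' y') :
    Cong p k (x - x') (y - y') := by
  obtain ⟨z, hz, e⟩ := h
  obtain ⟨z', hz', e'⟩ := h'
  exact ⟨z - z', sub_mem hz hz', by linear_combination e - e'⟩

lemma neg {k : ℕ} {x y : ℚ} (h : Cong p k x y) : Cong p k (-x) (-y) := by
  obtain ⟨z, hz, e⟩ := h
  exact ⟨-z, neg_mem hz, by linear_combination -e⟩

lemma mul_left {k : ℕ} {c x y : ℚ} (hc : c ∈ PInt p) (h : Cong p k x y) :
    Cong p k (c * x) (c * y) := by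
  obtain ⟨z, hz, e⟩ := h
  exact ⟨c * z, mul_mem hc hz, by linear_combination c * e⟩

lemma mul_right {k : ℕ} {c x y : ℚ} (hc : c ∈ PInt p) (h : Cong p k x y) :
    Cong p k (x * c) (y * c) := by
  rw [mul_comm x, mul_comm y]; exact mul_left hc h

lemma mul {k : ℕ} {x y x' y' : ℚ} (hx' : x' ∈ PInt p) (hy : y ∈ PInt p)
    (h : Cong p k x y) (h' : Cong p k x' y') : Cong p k (x * x') (y * y') :=
  (mul_right hx' h).trans (mul_left hy h')

lemma mem_of {k : ℕ} {x y : ℚ} (h : Cong p k x y) (hy : y ∈ PInt p) : x ∈ PInt p := by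
  obtain ⟨z, hz, e⟩ := h
  have : x = y + (p : ℚ) ^ k * z := by linear_combination e
  rw [this]
  exact add_mem hy (mul_mem (pow_mem (natCast_mem p p) k) hz)

lemma mono {k j : ℕ} (hkj : j ≤ k) {x y : ℚ} (h : Cong p k x y) : Cong p j x y := by
  obtain ⟨z, hz, e⟩ := h
  refine ⟨(p : ℚ) ^ (k - j) * z, mul_mem (pow_mem (natCast_mem p p) _) hz, ?_⟩
  rw [e, ← mul_assoc, ← pow_add, Nat.add_sub_cancel' hkj]

lemma scale {k j : ℕ} {x y : ℚ} (h : Cong p k x y) :
    Cong p (j + k) ((p : ℚ) ^ j * x) ((p : ℚ) ^ j * y) := by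
  obtain ⟨z, hz, e⟩ := h
  exact ⟨z, hz, by rw [pow_add]; linear_combination (p : ℚ) ^ j * e⟩

lemma unscale {k j : ℕ} {x y : ℚ} (h : Cong p (j + k) ((p : ℚ) ^ j * x) ((p : ℚ) ^ j * y)) :
    Cong p k x y := by
  obtain ⟨z, hz, e⟩ := h
  refine ⟨z, hz, ?_⟩
  have hp0 : (p : ℚ) ^ j ≠ 0 := pow_ne_zero _ p_ne_zero
  apply mul_left_cancel₀ hp0
  rw [pow_add] at e
  linear_combination e

lemma cancel {k : ℕ} {c x y : ℚ} (hc0 : c ≠ 0) (hc : c⁻¹ ∈ PInt p) (h : Cong p k (c * x) (c * y)) :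
    Cong p k x y := by
  have := mul_left hc h
  rwa [← mul_assoc, ← mul_assoc, inv_mul_cancel₀ hc0, one_mul, one_mul] at this

lemma sum {ι : Type*} (s : Finset ι) {k : ℕ} {f g : ι → ℚ} (h : ∀ i ∈ s, Cong p k (f i) (g i)) :
    Cong p k (∑ i ∈ s, f i) (∑ i ∈ s, g i) := by
  classical
  induction s using Finset.induction_on with
  | empty => simpa using refl k 0
  | insert a s ha ih =>
    rw [sum_insert ha, sum_insert ha]
    exact add (h a (mem_insert_self a s)) (ih (fun i hi => h i (mem_insert_of_mem hi)))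

lemma sq {k : ℕ} {x y : ℚ} (hy : y ∈ PInt p) (h : Cong p k x y) : Cong p k (x ^ 2) (y ^ 2) := by
  rw [pow_two, pow_two]
  exact mul (h.mem_of hy) hy h h

/-- if `x ≡ y ≡ 0 (mod p)` ... more precisely `p^(2k)` divides `x^2` when `p^k ∣ x`. -/
lemma sq_zero {k : ℕ} {x : ℚ} (h : Cong p k x 0) : Cong p (2 * k) (x ^ 2) 0 := by
  obtain ⟨z, hz, e⟩ := h
  refine ⟨z ^ 2, pow_mem hz 2, ?_⟩
  rw [sub_zero] at e
  rw [e]; ring

lemma inv {k : ℕ} {x y : ℚ} (hx0 : x ≠ 0) (hy0 : y ≠ 0) (hx : x⁻¹ ∈ PInt p) (hy : y⁻¹ ∈ PInt p)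
    (h : Cong p k x y) : Cong p k x⁻¹ y⁻¹ := by
  obtain ⟨z, hz, e⟩ := h
  refine ⟨-(x⁻¹ * y⁻¹ * z), neg_mem (mul_mem (mul_mem hx hy) hz), ?_⟩
  field_simp
  linear_combination -e

end Cong

/-- first order expansion of a product modulo the square of the perturbation -/
lemma prod_expand {ι : Type*} (s : Finset ι) {j : ℕ} (a : ι → ℚ) (c : ℚ) (hc : Cong p j c 0)
    (ha : ∀ i ∈ s, a i ∈ PInt p) :
    Cong p (2 * j) (∏ i ∈ s, (1 + c * a i)) (1 + c * ∑ i ∈ s, a i) := by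
  classical
  have hcI : c ∈ PInt p := hc.mem_of (zero_mem _)
  obtain ⟨z, hz, e⟩ := hc
  rw [sub_zero] at e
  induction s using Finset.induction_on with
  | empty => simpa using Cong.refl (2 * j) 1
  | insert b s hb ih =>
    rw [prod_insert hb, sum_insert hb]
    have ihs := ih (fun i hi => ha i (mem_insert_of_mem hi))
    have hab := ha b (mem_insert_self b s)
    have h1 := Cong.mul_left (add_mem (one_mem _) (mul_mem hcI hab)) ihs
    refine h1.trans ?_
    refine ⟨z ^ 2 * (a b * ∑ i ∈ s, a i), mul_mem (pow_mem hz 2)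
      (mul_mem hab (sum_mem fun i hi => ha i (mem_insert_of_mem hi))), ?_⟩
    rw [e]
    ring

end Pool.Agent.Work.MP_950ea9_nt
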