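import Mathlib

/-! # MP_950ea9_nt: the exact identity

`∑_{k ≤ n} (3k+1) C(2k,k)^3/16^k = (n+1) * G n (-(n+1)) * ∑_{i ≤ n} (G n (i+1/2))^2`
where `G n x = ∏_{t=1}^{n} (1 - x/t)`. -/

open Finset

namespace Pool.Agent.Work.MP_950ea9_nt

/-- `G n x = ∏_{t=1}^{n} (1 - x/t)` -/
def G (n : ℕ) (x : ℚ) : ℚ := ∏ t ∈ range n, (1 - x / ((t : ℚ) + 1))

lemma G_zero (x : ℚ) : G 0 x = 1 := by simp [G]

lemma G_succ (n : ℕ) (x : ℚ) : G (n + 1) x = G n x * (1 - x / ((n : ℚ) + 1)) := by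
  simp [G, prod_range_succ]

lemma G_shift (n : ℕ) (x : ℚ) : G n (x + 1) * ((n : ℚ) - x) = G n x * (-x) := by
  induction n with
  | zero => simp [G_zero]
  | succ n ih =>
    rw [G_succ, G_succ]
    have h : ((n : ℚ) + 1) ≠ 0 := by positivity
    have e1 : G n (x + 1) * (1 - (x + 1) / ((n : ℚ) + 1)) * (((n + 1 : ℕ) : ℚ) - x)
        = (G n (x + 1) * ((n : ℚ) - x)) * ((((n : ℚ) + 1) - x) / ((n : ℚ) + 1)) := by
      push_cast
      field_simp
      ring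
    rw [e1, ih]
    field_simp

/-- `G n (1/2) = C(2n,n)/4^n` -/
lemma G_half (n : ℕ) : G n (1 / 2) = (n.centralBinom : ℚ) / 4 ^ n := by
  induction n with
  | zero => simp [G_zero]
  | succ n ih =>
    rw [G_succ, ih]
    have h : ((n : ℚ) + 1) ≠ 0 := by positivity
    have h2 : ((n : ℚ) + 1) * ((n + 1).centralBinom : ℚ) = 2 * (2 * n + 1) * (n.centralBinom : ℚ) := by
      exact_mod_cast Nat.succ_mul_centralBinom_succ n
    have h3 : ((n + 1).centralBinom : ℚ) = 2 * (2 * n + 1) * (n.centralBinom : ℚ) / ((n : ℚ) + 1) := by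
      field_simp
      linarith
    rw [h3, pow_succ]
    field_simp
    ring

lemma G_top (n : ℕ) : (G n ((2 * n + 3) / 2)) ^ 2 = (2 * n + 1) ^ 2 * (G n (1 / 2)) ^ 2 := by
  have key : ∀ m : ℕ, ∏ t ∈ range m, (((t : ℚ) + 1 + 1 / 2) / ((t : ℚ) + 1))
      = (2 * m + 1) * ∏ t ∈ range m, (1 - (1 / 2) / ((t : ℚ) + 1)) := by
    intro m
    induction m with
    | zero => simp
    | succ m ih =>
      rw [prod_range_succ, prod_range_succ, ih]
      have h : ((m : ℚ) + 1) ≠ 0 := by positivity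
      push_cast
      field_simp
      ring
  have h1 : G n ((2 * n + 3) / 2) = (-1) ^ n * ∏ t ∈ range n, (((t : ℚ) + 1 + 1 / 2) / ((t : ℚ) + 1)) := by
    have e1 : G n ((2 * n + 3) / 2)
        = (∏ t ∈ range n, (-((n : ℚ) - t - 1 + 1 + 1 / 2))) / ∏ t ∈ range n, ((t : ℚ) + 1) := by
      rw [← prod_div_distrib, G]
      apply prod_congr rfl
      intro t _
      have h : ((t : ℚ) + 1) ≠ 0 := by positivity
      field_simp
      ring
    have e2 : ∏ t ∈ range n, (-((n : ℚ) - t - 1 + 1 + 1 / 2))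
        = ∏ t ∈ range n, (-((t : ℚ) + 1 + 1 / 2)) := by
      rw [← prod_range_reflect (fun t : ℕ => (-((t : ℚ) + 1 + 1 / 2))) n]
      apply prod_congr rfl
      intro t ht
      have ht' := mem_range.mp ht
      have : ((n - 1 - t : ℕ) : ℚ) = (n : ℚ) - 1 - t := by
        rw [Nat.cast_sub (by omega), Nat.cast_sub (by omega)]; simp
      rw [this]
      ring
    rw [e1, e2, prod_neg, card_range, prod_div_distrib, mul_div_assoc]
  rw [h1, key n]
  rw [mul_pow, ← pow_mul, mul_comm n 2, pow_mul]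
  norm_num
  rw [mul_pow, G]

/-- sum of squares -/
def u (n : ℕ) : ℚ := ∑ i ∈ range (n + 1), (G n ((2 * i + 1) / 2)) ^ 2

lemma u_rec (n : ℕ) : 2 * (2 * n + 3) * u (n + 1)
    = (n + 1) * u n + 2 * (3 * n + 4) * (((n + 1).centralBinom : ℚ) / 4 ^ (n + 1)) ^ 2 := by
  have hN : ((n : ℚ) + 1) ≠ 0 := by positivity
  set N : ℚ := (n : ℚ) + 1 with hNdef
  let f : ℕ → ℚ := fun i => (G n ((2 * i + 1) / 2)) ^ 2
  let g : ℕ → ℚ := fun i => (4 * i - 2 * (3 * N + 1)) / N ^ 2 * (2 * N - 2 * i - 1) ^ 2 * f i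
  have hf : ∀ i : ℕ, (2 * N - 2 * i - 3) ^ 2 * f (i + 1) = (2 * i + 1) ^ 2 * f i := by
    intro i
    have h := G_shift n ((2 * i + 1) / 2)
    have e : ((2 * ((i + 1 : ℕ) : ℚ) + 1) / 2) = (2 * (i : ℚ) + 1) / 2 + 1 := by push_cast; ring
    simp only [f]
    rw [e]
    have : (2 * N - 2 * i - 3) * G n ((2 * (i : ℚ) + 1) / 2 + 1) = -(2 * i + 1) * G n ((2 * i + 1) / 2) := by
      rw [hNdef]
      linear_combination 2 * h
    calc (2 * N - 2 * (i : ℚ) - 3) ^ 2 * (G n ((2 * (i : ℚ) + 1) / 2 + 1)) ^ 2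
        = ((2 * N - 2 * i - 3) * G n ((2 * (i : ℚ) + 1) / 2 + 1)) ^ 2 := by ring
      _ = _ := by rw [this]; ring
  have hstep : ∀ i : ℕ, 16 * (2 * N + 1) * (G (n + 1) ((2 * i + 1) / 2)) ^ 2 - 8 * N * f i
      = g (i + 1) - g i := by
    intro i
    have e1 : g (i + 1) = (4 * (i + 1) - 2 * (3 * N + 1)) / N ^ 2 * ((2 * N - 2 * i - 3) ^ 2 * f (i + 1)) := by
      simp only [g]
      push_cast
      ring
    rw [e1, hf i, G_succ]
    simp only [g, f]
    rw [← hNdef]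
    field_simp
    ring
  have hsum : ∑ i ∈ range (n + 1), (16 * (2 * N + 1) * (G (n + 1) ((2 * i + 1) / 2)) ^ 2 - 8 * N * f i)
      = g (n + 1) - g 0 := by
    rw [← sum_range_sub]
    exact sum_congr rfl (fun i _ => hstep i)
  rw [sum_sub_distrib, ← mul_sum, ← mul_sum] at hsum
  have hu : u (n + 1) = ∑ i ∈ range (n + 1), (G (n + 1) ((2 * i + 1) / 2)) ^ 2
      + (G (n + 1) ((2 * ((n + 1 : ℕ) : ℚ) + 1) / 2)) ^ 2 := by
    rw [u, sum_range_succ]
  have hun : u n = ∑ i ∈ range (n + 1), f i := rfl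
  -- boundary terms
  have hg0 : g 0 = -(2 * (3 * N + 1)) / N ^ 2 * (2 * N - 1) ^ 2 * (G n (1 / 2)) ^ 2 := by
    simp only [g, f]
    norm_num
  have hgn : g (n + 1) = (4 * N - 2 * (3 * N + 1)) / N ^ 2 * ((2 * n + 1) ^ 2 * (G n (1 / 2)) ^ 2) := by
    simp only [g, f]
    rw [← G_top n]
    have e : ((2 * ((n + 1 : ℕ) : ℚ) + 1) / 2) = (2 * (n : ℚ) + 3) / 2 := by push_cast; ring
    rw [e]
    push_cast
    rw [← hNdef]
    have : (2 * N - 2 * N - 1) ^ 2 = 1 := by ring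
    rw [this]
    ring
  have hlast : (G (n + 1) ((2 * ((n + 1 : ℕ) : ℚ) + 1) / 2)) ^ 2
      = (((n + 1).centralBinom : ℚ) / 4 ^ (n + 1)) ^ 2 := by
    rw [← G_half (n + 1), G_succ, G_succ]
    have e : ((2 * ((n + 1 : ℕ) : ℚ) + 1) / 2) = (2 * (n : ℚ) + 3) / 2 := by push_cast; ring
    rw [e, mul_pow, G_top n]
    field_simp
    ring
  have hc : (((n + 1).centralBinom : ℚ) / 4 ^ (n + 1)) ^ 2
      = ((2 * N - 1) / (2 * N)) ^ 2 * (G n (1 / 2)) ^ 2 := by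
    rw [← G_half (n + 1), G_succ]
    rw [← hNdef]
    field_simp
  rw [hg0, hgn] at hsum
  rw [hu, hlast, hun, hc]
  have hn : (n : ℚ) = N - 1 := by rw [hNdef]; ring
  rw [hn] at hsum ⊢
  have h2 : 16 * (2 * N + 1) * ∑ i ∈ range (n + 1), (G (n + 1) ((2 * i + 1) / 2)) ^ 2
      = 8 * N * ∑ i ∈ range (n + 1), f i
      + ((4 * N - 2 * (3 * N + 1)) / N ^ 2 * ((2 * (N - 1) + 1) ^ 2 * (G n (1 / 2)) ^ 2)
        - -(2 * (3 * N + 1)) / N ^ 2 * (2 * N - 1) ^ 2 * (G n (1 / 2)) ^ 2) := by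
    linarith
  have h3 : (2 * (2 * (N - 1) + 3)) * ∑ i ∈ range (n + 1), (G (n + 1) ((2 * i + 1) / 2)) ^ 2
      = (1 / 8) * (16 * (2 * N + 1) * ∑ i ∈ range (n + 1), (G (n + 1) ((2 * i + 1) / 2)) ^ 2) := by
    ring
  rw [mul_add, h3, h2]
  field_simp
  ring

lemma G_neg (n : ℕ) : G n (-((n : ℚ) + 1)) = ((n + 1).centralBinom : ℚ) / 2 := by
  -- G n (-(n+1)) = ∏ (t+1+n+1)/(t+1) = C(2n+1,n)
  have key : ∀ m : ℕ, ∀ y : ℕ, ∏ t ∈ range m, (1 + ((y : ℚ) + 1) / ((t : ℚ) + 1))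
      = (Nat.choose (y + 1 + m) m : ℚ) := by
    intro m y
    induction m with
    | zero => simp
    | succ m ih =>
      rw [prod_range_succ, ih]
      have h : ((m : ℚ) + 1) ≠ 0 := by positivity
      have h2 := Nat.add_one_mul_choose_eq (y + 1 + m) m
      have h3 : ((y : ℚ) + 1 + m + 1) * (Nat.choose (y + 1 + m) m : ℚ)
          = (Nat.choose (y + 1 + (m + 1)) (m + 1) : ℚ) * ((m : ℚ) + 1) := by
        exact_mod_cast h2
      field_simp
      linarith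
  have h1 : G n (-((n : ℚ) + 1)) = (Nat.choose (n + 1 + n) n : ℚ) := by
    rw [← key n n, G]
    apply prod_congr rfl
    intro t _
    ring
  rw [h1]
  have h2 : (n + 1).centralBinom = 2 * Nat.choose (n + 1 + n) n := by
    rw [Nat.centralBinom, show 2 * (n + 1) = (n + 1 + n) + 1 by ring, Nat.choose_succ_succ]
    have : Nat.choose (n + 1 + n) (n + 1) = Nat.choose (n + 1 + n) n := by
      rw [← Nat.choose_symm_of_eq_add]
      ring
    rw [this]; ring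
  rw [h2]
  push_cast
  ring

/-- The exact identity. -/
theorem identity (n : ℕ) :
    ∑ k ∈ range (n + 1), (3 * (k : ℚ) + 1) * ((k.centralBinom : ℚ) / 4 ^ k) ^ 3 * 4 ^ k
      = (n + 1) * G n (-((n : ℚ) + 1)) * u n := by
  induction n with
  | zero => simp [G_zero, u]
  | succ n ih =>
    rw [sum_range_succ, ih]
    have hrec := u_rec n
    have hG := G_neg n
    have hG' := G_neg (n + 1)
    have hc : ((n : ℚ) + 1 + 1) * ((n + 1 + 1).centralBinom : ℚ)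
        = 2 * (2 * (n + 1) + 1) * ((n + 1).centralBinom : ℚ) := by
      exact_mod_cast Nat.succ_mul_centralBinom_succ (n + 1)
    rw [hG]
    have hG'' : G (n + 1) (-(((n + 1 : ℕ) : ℚ) + 1)) = ((n + 1 + 1).centralBinom : ℚ) / 2 := hG'
    rw [hG'']
    have h4 : (4 : ℚ) ^ (n + 1) ≠ 0 := by positivity
    have e : (((n + 1 : ℕ) : ℚ) + 1) * (((n + 1 + 1).centralBinom : ℚ) / 2) * u (n + 1)
        = (((n : ℚ) + 1 + 1) * ((n + 1 + 1).centralBinom : ℚ)) / 2 * u (n + 1) := by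
      push_cast; ring
    rw [e, hc]
    have e2 : 2 * (2 * ((n : ℚ) + 1) + 1) * ((n + 1).centralBinom : ℚ) / 2 * u (n + 1)
        = ((n + 1).centralBinom : ℚ) / 2 * (2 * (2 * n + 3) * u (n + 1)) := by ring
    rw [e2, hrec]
    push_cast
    field_simp
    ring

end Pool.Agent.Work.MP_950ea9_nt
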