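import Pool.Agent.Work.MP_950ea9_nt.Step

/-! # MP_950ea9_nt: the case `r = 1` -/

set_option linter.unusedSectionVars false
set_option linter.unusedVariables false

open Finset

namespace Pool.Agent.Work.MP_950ea9_nt

variable {p : ℕ} [hp : Fact p.Prime]

section combinatorics

/-- low / high splitting -/
lemma sum_low_high {h : ℕ} (hh : p = 2 * h + 1) (f : ℕ → ℚ) :
    ∑ t ∈ Ico 1 p, f t = ∑ t ∈ Ico 1 (h + 1), (f t + f (p - t)) := by
  rw [sum_add_distrib]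
  have h1 : Ico 1 p = Ico 1 (h + 1) ∪ Ico (h + 1) p := by
    ext t; simp only [mem_union, mem_Ico]; omega
  have hd : Disjoint (Ico 1 (h + 1)) (Ico (h + 1) p) := by
    rw [disjoint_left]; intro t; simp only [mem_Ico]; omega
  rw [h1, sum_union hd]
  congr 1
  apply sum_nbij' (fun t => p - t) (fun t => p - t)
  · intro t; simp only [mem_Ico]; omega
  · intro t; simp only [mem_Ico]; omega
  · intro t; simp only [mem_Ico]; omega
  · intro t; simp only [mem_Ico]; omega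
  · intro t ht
    simp only [mem_Ico] at ht
    congr 1; omega

lemma prod_low_high {h : ℕ} (hh : p = 2 * h + 1) (f : ℕ → ℚ) :
    ∏ t ∈ Ico 1 p, f t = ∏ t ∈ Ico 1 (h + 1), (f t * f (p - t)) := by
  rw [prod_mul_distrib]
  have h1 : Ico 1 p = Ico 1 (h + 1) ∪ Ico (h + 1) p := by
    ext t; simp only [mem_union, mem_Ico]; omega
  have hd : Disjoint (Ico 1 (h + 1)) (Ico (h + 1) p) := by
    rw [disjoint_left]; intro t; simp only [mem_Ico]; omega
  rw [h1, prod_union hd]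
  congr 1
  apply prod_nbij' (fun t => p - t) (fun t => p - t)
  · intro t; simp only [mem_Ico]; omega
  · intro t; simp only [mem_Ico]; omega
  · intro t; simp only [mem_Ico]; omega
  · intro t; simp only [mem_Ico]; omega
  · intro t ht
    simp only [mem_Ico] at ht
    congr 1; omega

/-- even / odd splitting -/
lemma sum_even_odd {h : ℕ} (hh : p = 2 * h + 1) (f : ℕ → ℚ) :
    ∑ t ∈ Ico 1 p, f t = ∑ b ∈ Ico 1 (h + 1), (f (2 * b) + f (p - 2 * b)) := by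
  rw [sum_add_distrib, ← sum_filter_add_sum_filter_not (Ico 1 p) (fun t => t % 2 = 0)]
  congr 1
  · apply sum_nbij' (fun t => t / 2) (fun t => 2 * t)
    · intro t; simp only [mem_Ico, mem_filter]; omega
    · intro t; simp only [mem_Ico, mem_filter]; omega
    · intro t; simp only [mem_Ico, mem_filter]; omega
    · intro t; simp only [mem_Ico]; omega
    · intro t ht
      simp only [mem_Ico, mem_filter] at ht
      congr 1; omega
  · apply sum_nbij' (fun t => (p - t) / 2) (fun b => p - 2 * b)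
    · intro t; simp only [mem_Ico, mem_filter]; omega
    · intro t; simp only [mem_Ico, mem_filter]; omega
    · intro t; simp only [mem_Ico, mem_filter]; omega
    · intro t; simp only [mem_Ico]; omega
    · intro t ht
      simp only [mem_Ico, mem_filter] at ht
      congr 1; omega

lemma sum_centre {h : ℕ} (f : ℕ → ℚ) :
    ∑ i ∈ range (2 * h + 1), f i = f h + ∑ b ∈ Ico 1 (h + 1), (f (h - b) + f (h + b)) := by
  rw [sum_add_distrib]
  have h1 : range (2 * h + 1) = insert h (range h ∪ Ico (h + 1) (2 * h + 1)) := by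
    ext t; simp only [mem_union, mem_Ico, mem_range, mem_insert]; omega
  have hd : Disjoint (range h) (Ico (h + 1) (2 * h + 1)) := by
    rw [disjoint_left]; intro t; simp only [mem_Ico, mem_range]; omega
  have hn : h ∉ (range h ∪ Ico (h + 1) (2 * h + 1)) := by
    simp only [mem_union, mem_Ico, mem_range]; omega
  rw [h1, sum_insert hn, sum_union hd]
  congr 1
  congr 1
  · apply sum_nbij' (fun t => h - t) (fun t => h - t)
    · intro t; simp only [mem_Ico, mem_range]; omega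
    · intro t; simp only [mem_Ico, mem_range]; omega
    · intro t; simp only [mem_range]; omega
    · intro t; simp only [mem_Ico]; omega
    · intro t ht
      simp only [mem_range] at ht
      congr 1; omega
  · apply sum_nbij' (fun t => t - h) (fun t => h + t)
    · intro t; simp only [mem_Ico]; omega
    · intro t; simp only [mem_Ico]; omega
    · intro t; simp only [mem_Ico]; omega
    · intro t; simp only [mem_Ico]; omega
    · intro t ht
      simp only [mem_Ico] at ht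
      congr 1; omega

end combinatorics

/-- power sums of inverses over `1..h` -/
def hs (h k : ℕ) : ℚ := ∑ b ∈ Ico 1 (h + 1), ((b : ℚ)⁻¹) ^ k

/-- `∑_{a<b≤h} 1/(a b^2)` -/
def K (h : ℕ) : ℚ := ∑ b ∈ Ico 1 (h + 1), ((b : ℚ)⁻¹) ^ 2 * ∑ a ∈ Ico 1 b, (a : ℚ)⁻¹

/-- `∑_{t ≤ h} 1/(t (p-t))` -/
def Gh (p h : ℕ) : ℚ := ∑ t ∈ Ico 1 (h + 1), ((t : ℚ)⁻¹) * (((p : ℚ) - t)⁻¹)

section primes

variable {h : ℕ} (hh : p = 2 * h + 1)

include hh

lemma not_dvd_low {b : ℕ} (hb : b ∈ Ico 1 (h + 1)) : ¬ p ∣ b := by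
  rw [mem_Ico] at hb
  intro hd
  have := Nat.le_of_dvd (by omega) hd
  omega

lemma inv_low_mem {b : ℕ} (hb : b ∈ Ico 1 (h + 1)) : ((b : ℚ)⁻¹) ∈ PInt p :=
  inv_natCast_mem (not_dvd_low hh hb)

lemma low_ne_zero {b : ℕ} (hb : b ∈ Ico 1 (h + 1)) : (b : ℚ) ≠ 0 := by
  rw [mem_Ico] at hb
  have : b ≠ 0 := by omega
  exact_mod_cast this

lemma inv_psub_mem {b : ℕ} (hb : b ∈ Ico 1 (h + 1)) : (((p : ℚ) - b)⁻¹) ∈ PInt p := by
  have h1 : ¬ p ∣ (p - b) := by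
    rw [mem_Ico] at hb
    intro hd
    have := Nat.le_of_dvd (by omega) hd
    omega
  have h2 := inv_natCast_mem h1
  rw [mem_Ico] at hb
  rwa [Nat.cast_sub (by omega)] at h2

lemma psub_ne_zero {b : ℕ} (hb : b ∈ Ico 1 (h + 1)) : ((p : ℚ) - b) ≠ 0 := by
  rw [mem_Ico] at hb
  have h1 : p - b ≠ 0 := by omega
  rw [← Nat.cast_sub (by omega)]
  exact_mod_cast h1

lemma inv_psub2_mem {b : ℕ} (hb : b ∈ Ico 1 (h + 1)) : (((p : ℚ) - 2 * b)⁻¹) ∈ PInt p := by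
  have h1 : ¬ p ∣ (p - 2 * b) := by
    rw [mem_Ico] at hb
    intro hd
    have := Nat.le_of_dvd (by omega) hd
    omega
  have h2 := inv_natCast_mem h1
  rw [mem_Ico] at hb
  rw [Nat.cast_sub (by omega)] at h2
  push_cast at h2
  exact h2

lemma psub2_ne_zero {b : ℕ} (hb : b ∈ Ico 1 (h + 1)) : ((p : ℚ) - 2 * b) ≠ 0 := by
  rw [mem_Ico] at hb
  have h1 : p - 2 * b ≠ 0 := by omega
  have h2 : ((p - 2 * b : ℕ) : ℚ) ≠ 0 := by exact_mod_cast h1
  rw [Nat.cast_sub (by omega)] at h2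
  push_cast at h2
  exact h2

lemma hs_mem (k : ℕ) : hs h k ∈ PInt p :=
  sum_mem fun b hb => pow_mem (inv_low_mem hh hb) k

lemma Gh_mem : Gh p h ∈ PInt p :=
  sum_mem fun b hb => mul_mem (inv_low_mem hh hb) (inv_psub_mem hh hb)

lemma inner_mem {b : ℕ} (hb : b ∈ Ico 1 (h + 1)) : ∑ a ∈ Ico 1 b, (a : ℚ)⁻¹ ∈ PInt p := by
  apply sum_mem
  intro a ha
  apply inv_low_mem hh
  rw [mem_Ico] at *
  omega

lemma K_mem : K h ∈ PInt p :=
  sum_mem fun b hb => mul_mem (pow_mem (inv_low_mem hh hb) 2) (inner_mem hh hb)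

/-- product formula -/
lemma G_prime (x : ℚ) :
    G (p - 1) x = ∏ t ∈ Ico 1 (h + 1), (1 + (x * (x - p)) * (((t : ℚ)⁻¹) * (((p : ℚ) - t)⁻¹))) := by
  have h1 : p - 1 + 1 = p := by omega
  rw [G_eq_Ico, h1, prod_low_high hh]
  apply prod_congr rfl
  intro t ht
  have h2 := low_ne_zero hh ht
  have h3 := psub_ne_zero hh ht
  rw [mem_Ico] at ht
  rw [Nat.cast_sub (by omega)]
  field_simp
  ring

lemma G_prime_symm (x : ℚ) : G (p - 1) (p - x) = G (p - 1) x := by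
  rw [G_prime hh, G_prime hh]
  apply prod_congr rfl
  intro t _
  ring

lemma G_prime_expand (x : ℚ) (hx : Cong p 2 (x * (x - p)) 0) :
    Cong p 4 (G (p - 1) x) (1 + (x * (x - p)) * Gh p h) := by
  rw [G_prime hh, Gh]
  exact prod_expand (j := 2) (Ico 1 (h + 1)) (fun t : ℕ => ((t : ℚ)⁻¹) * (((p : ℚ) - t)⁻¹)) _ hx
    (fun t ht => mul_mem (inv_low_mem hh ht) (inv_psub_mem hh ht))

lemma Gh_cong : Cong p 2 (Gh p h) (-(hs h 2 + p * hs h 3)) := by
  have h1 : -(hs h 2 + p * hs h 3) = ∑ t ∈ Ico 1 (h + 1), (-(((t : ℚ)⁻¹) ^ 2 + p * ((t : ℚ)⁻¹) ^ 3)) := by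
    rw [sum_neg_distrib, sum_add_distrib, ← mul_sum, hs, hs]
  rw [h1, Gh]
  apply Cong.sum
  intro t ht
  have h2 := low_ne_zero hh ht
  have h3 := psub_ne_zero hh ht
  refine ⟨((t : ℚ)⁻¹) ^ 3 * (((p : ℚ) - t)⁻¹), mul_mem (pow_mem (inv_low_mem hh ht) 3) (inv_psub_mem hh ht), ?_⟩
  field_simp
  ring

/-- the values `G (p-1) (p/2 - b)` -/
lemma G_half_p (b : ℕ) (hb : b ≤ h) (hb1 : 1 ≤ b) :
    (((p : ℚ) - 2 * b) * G (p - 1) (p / 2 - b)) ^ 2
      = (p * G (p - 1) (p / 2)) ^ 2 * ∏ a ∈ Ico 1 b, (((p : ℚ) + 2 * a) * ((p : ℚ) - 2 * a)⁻¹) ^ 2 := by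
  have hrec : ∀ c : ℕ, ((p : ℚ) - 2 * ((c + 1 : ℕ) : ℚ)) * G (p - 1) (p / 2 - ((c + 1 : ℕ) : ℚ))
      = -((p : ℚ) + 2 * c) * G (p - 1) (p / 2 - c) := by
    intro c
    have h1 := G_shift (p - 1) (p / 2 - ((c + 1 : ℕ) : ℚ))
    have h2 : (p / 2 - ((c + 1 : ℕ) : ℚ)) + 1 = p / 2 - (c : ℚ) := by push_cast; ring
    rw [h2, Nat.cast_sub hp.out.one_lt.le] at h1
    push_cast at h1 ⊢
    linear_combination (2 : ℚ) * h1
  induction b with
  | zero => omega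
  | succ b ih =>
    rcases Nat.eq_zero_or_pos b with rfl | hb0
    · have := hrec 0
      rw [this]
      simp
    · have ihb := ih (by omega) hb0
      rw [prod_Ico_succ_top hb0, ← mul_assoc, ← ihb, hrec b]
      have h3 := psub2_ne_zero hh (show b ∈ Ico 1 (h + 1) by rw [mem_Ico]; omega)
      field_simp

lemma factor_cong {b : ℕ} (hb : b ∈ Ico 1 (h + 1)) :
    Cong p 2 ((((p : ℚ) + 2 * b) * ((p : ℚ) - 2 * b)⁻¹) ^ 2) (1 + 2 * p * (b : ℚ)⁻¹) := by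
  have h1 := inv_low_mem hh hb
  have h2 := inv_psub2_mem hh hb
  have h3 := low_ne_zero hh hb
  have h4 := psub2_ne_zero hh hb
  refine ⟨2 * (4 * b - p) * ((b : ℚ)⁻¹ * (((p : ℚ) - 2 * b)⁻¹) ^ 2), ?_, ?_⟩
  · refine mul_mem (mul_mem ?_ (sub_mem (mul_mem ?_ (natCast_mem p b)) (natCast_mem p p)))
      (mul_mem h1 (pow_mem h2 2))
    · exact_mod_cast natCast_mem p 2
    · exact_mod_cast natCast_mem p 4
  · field_simp
    ring

lemma prod_factor_cong (b : ℕ) (hb : b ≤ h) (hb1 : 1 ≤ b) :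
    Cong p 2 (∏ a ∈ Ico 1 b, (((p : ℚ) + 2 * a) * ((p : ℚ) - 2 * a)⁻¹) ^ 2)
      (1 + 2 * p * ∑ a ∈ Ico 1 b, (a : ℚ)⁻¹) := by
  induction b with
  | zero => omega
  | succ b ih =>
    rcases Nat.eq_zero_or_pos b with rfl | hb0
    · simpa using Cong.refl 2 1
    · have ihb := ih (by omega) hb0
      have hbm : b ∈ Ico 1 (h + 1) := by rw [mem_Ico]; omega
      rw [prod_Ico_succ_top hb0, sum_Ico_succ_top hb0]
      have hi := inner_mem hh hbm
      have h2 : (2 : ℚ) ∈ PInt p := by exact_mod_cast natCast_mem p 2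
      have hf := factor_cong hh hbm
      have hfm : (1 + 2 * p * (b : ℚ)⁻¹) ∈ PInt p :=
        add_mem (one_mem _) (mul_mem (mul_mem h2 (natCast_mem p p)) (inv_low_mem hh hbm))
      have him : (1 + 2 * p * ∑ a ∈ Ico 1 b, (a : ℚ)⁻¹) ∈ PInt p :=
        add_mem (one_mem _) (mul_mem (mul_mem h2 (natCast_mem p p)) hi)
      refine (Cong.mul (hf.mem_of hfm) him ihb hf).trans ?_
      refine ⟨4 * ((∑ a ∈ Ico 1 b, (a : ℚ)⁻¹) * (b : ℚ)⁻¹), ?_, ?_⟩
      · refine mul_mem ?_ (mul_mem hi (inv_low_mem hh hbm))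
        exact_mod_cast natCast_mem p 4
      · ring

lemma inv_sq_cong {b : ℕ} (hb : b ∈ Ico 1 (h + 1)) (h2 : p ≠ 2) :
    Cong p 2 ((((p : ℚ) - 2 * b)⁻¹) ^ 2) ((1 / 4) * (((b : ℚ)⁻¹) ^ 2 + p * ((b : ℚ)⁻¹) ^ 3)) := by
  have h1 := inv_low_mem hh hb
  have h2' := inv_psub2_mem hh hb
  have h3 := low_ne_zero hh hb
  have h4 := psub2_ne_zero hh hb
  have hhalf := half_mem (p := p) h2
  refine ⟨(1 / 2) ^ 2 * (3 * b - p) * (((b : ℚ)⁻¹) ^ 3 * (((p : ℚ) - 2 * b)⁻¹) ^ 2), ?_, ?_⟩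
  · refine mul_mem (mul_mem (pow_mem hhalf 2) (sub_mem (mul_mem ?_ (natCast_mem p b)) (natCast_mem p p)))
      (mul_mem (pow_mem h1 3) (pow_mem h2' 2))
    exact_mod_cast natCast_mem p 3
  · field_simp
    ring

lemma G_half_p_cong {b : ℕ} (hb : b ∈ Ico 1 (h + 1)) (h2 : p ≠ 2) :
    Cong p 4 ((G (p - 1) (p / 2 - b)) ^ 2)
      (p ^ 2 * ((1 / 4) * (((b : ℚ)⁻¹) ^ 2 + p * ((b : ℚ)⁻¹) ^ 3
        + 2 * p * (((b : ℚ)⁻¹) ^ 2 * ∑ a ∈ Ico 1 b, (a : ℚ)⁻¹)))) := by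
  have h3 := low_ne_zero hh hb
  have h4 := psub2_ne_zero hh hb
  have hb' := mem_Ico.1 hb
  have hhalf := half_mem (p := p) h2
  have h2I : (2 : ℚ) ∈ PInt p := by exact_mod_cast natCast_mem p 2
  have hquart : (1 / 4 : ℚ) ∈ PInt p := by
    have := mul_mem hhalf hhalf
    norm_num at this
    norm_num
    exact this
  have e1 : (G (p - 1) (p / 2 - b)) ^ 2 = (p : ℚ) ^ 2 * ((G (p - 1) (p / 2)) ^ 2
      * ((((p : ℚ) - 2 * b)⁻¹) ^ 2 * ∏ a ∈ Ico 1 b, (((p : ℚ) + 2 * a) * ((p : ℚ) - 2 * a)⁻¹) ^ 2)) := by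
    have h5 := G_half_p hh b (by omega) (by omega)
    rw [mul_pow, mul_pow] at h5
    have h6 : ((p : ℚ) - 2 * b) ^ 2 ≠ 0 := pow_ne_zero _ h4
    apply mul_left_cancel₀ h6
    rw [h5]
    field_simp
  rw [e1]
  have hGc : Cong p 2 ((G (p - 1) (p / 2)) ^ 2) 1 := by
    have hx : Cong p 2 ((p : ℚ) / 2 * (p / 2 - p)) 0 :=
      ⟨-(1 / 4), neg_mem hquart, by ring⟩
    have h7 := (G_prime_expand hh (p / 2) hx).mono (show 2 ≤ 4 by norm_num)
    have h8 : Cong p 2 (1 + (p : ℚ) / 2 * (p / 2 - p) * Gh p h) 1 := by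
      refine ⟨-(1 / 4) * Gh p h, mul_mem (neg_mem hquart) (Gh_mem hh), by ring⟩
    have := (h7.trans h8).sq (one_mem _)
    simpa using this
  have hP := prod_factor_cong hh b (by omega) (by omega)
  have hI := inv_sq_cong hh hb h2
  have hiI := inner_mem hh hb
  have hbI := inv_low_mem hh hb
  have m1 : (1 / 4) * (((b : ℚ)⁻¹) ^ 2 + p * ((b : ℚ)⁻¹) ^ 3) ∈ PInt p :=
    mul_mem hquart (add_mem (pow_mem hbI 2) (mul_mem (natCast_mem p p) (pow_mem hbI 3)))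
  have m2 : (1 + 2 * p * ∑ a ∈ Ico 1 b, (a : ℚ)⁻¹) ∈ PInt p :=
    add_mem (one_mem _) (mul_mem (mul_mem h2I (natCast_mem p p)) hiI)
  have h9 := Cong.mul (hP.mem_of m2) m1 hI hP
  have h10 := Cong.mul (h9.mem_of (mul_mem m1 m2)) (one_mem _) hGc h9
  have h11 := Cong.scale (j := 2) h10
  refine h11.trans (Cong.scale (j := 2) (k := 2) ?_)
  refine ⟨(1 / 2) * ((b : ℚ)⁻¹) ^ 3 * ∑ a ∈ Ico 1 b, (a : ℚ)⁻¹,
    mul_mem (mul_mem hhalf (pow_mem hbI 3)) hiI, ?_⟩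
  ring

/-- sum of squares for `N = p` -/
lemma u_prime (h2 : p ≠ 2) : Cong p 4 (u (p - 1)) (1 - p ^ 2 * Gh p h + p ^ 3 * K h) := by
  have hhalf := half_mem (p := p) h2
  have h2I : (2 : ℚ) ∈ PInt p := by exact_mod_cast natCast_mem p 2
  have hquart : (1 / 4 : ℚ) ∈ PInt p := by
    have := mul_mem hhalf hhalf
    norm_num at this
    norm_num
    exact this
  have hp1 : p - 1 + 1 = p := by omega
  have e0 : u (p - 1) = (G (p - 1) (p / 2)) ^ 2
      + 2 * ∑ b ∈ Ico 1 (h + 1), (G (p - 1) (p / 2 - b)) ^ 2 := by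
    rw [u, hp1]
    conv_lhs => rw [hh]
    rw [sum_centre, ← hh, mul_sum]
    have hpq : (p : ℚ) = 2 * h + 1 := by exact_mod_cast hh
    congr 1
    · rw [hpq]
    · apply sum_congr rfl
      intro b hb
      have hb' := mem_Ico.1 hb
      have e1 : (2 * ((h - b : ℕ) : ℚ) + 1) / 2 = p / 2 - b := by
        rw [Nat.cast_sub (by omega), hpq]; ring
      have e2 : (2 * ((h + b : ℕ) : ℚ) + 1) / 2 = p - (p / 2 - b) := by
        rw [hpq]; push_cast; ring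
      rw [e1, e2, G_prime_symm hh]
      ring
  rw [e0]
  have hc : Cong p 4 ((G (p - 1) (p / 2)) ^ 2) (1 - (1 / 2) * p ^ 2 * Gh p h) := by
    have hx : Cong p 2 ((p : ℚ) / 2 * (p / 2 - p)) 0 :=
      ⟨-(1 / 4), neg_mem hquart, by ring⟩
    have h7 := G_prime_expand hh (p / 2) hx
    have e1 : 1 + (p : ℚ) / 2 * (p / 2 - p) * Gh p h = 1 - (1 / 4) * p ^ 2 * Gh p h := by ring
    rw [e1] at h7
    have m : 1 - (1 / 4) * (p : ℚ) ^ 2 * Gh p h ∈ PInt p :=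
      sub_mem (one_mem _) (mul_mem (mul_mem hquart (pow_mem (natCast_mem p p) 2)) (Gh_mem hh))
    refine (h7.sq m).trans ?_
    refine ⟨(1 / 4) ^ 2 * (Gh p h) ^ 2, mul_mem (pow_mem hquart 2) (pow_mem (Gh_mem hh) 2), ?_⟩
    ring
  have hs' : Cong p 4 (∑ b ∈ Ico 1 (h + 1), (G (p - 1) (p / 2 - b)) ^ 2)
      (p ^ 2 * ((1 / 4) * (hs h 2 + p * hs h 3 + 2 * p * K h))) := by
    have h1 := Cong.sum (k := 4) (Ico 1 (h + 1)) (fun b hb => G_half_p_cong hh hb h2)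
    refine h1.trans (Cong.of_eq ?_)
    rw [← mul_sum, ← mul_sum, sum_add_distrib, sum_add_distrib, ← mul_sum, ← mul_sum, hs, hs, K]
  have hG2 := Gh_cong hh
  -- p^2 * (hs 2 + p hs 3) ≡ - p^2 Gh
  have h5 : Cong p 4 ((p : ℚ) ^ 2 * (-(hs h 2 + p * hs h 3))) ((p : ℚ) ^ 2 * Gh p h) :=
    Cong.scale (j := 2) (k := 2) hG2.symm
  have h6 := (hc.add (Cong.mul_left h2I hs'))
  refine h6.trans ?_
  have h7 := Cong.mul_left (neg_mem hhalf) h5
  have h8 := (Cong.refl (p := p) 4 (1 - (1 / 2) * (p : ℚ) ^ 2 * Gh p h + p ^ 3 * K h)).add h7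
  refine (Cong.of_eq ?_).trans (h8.trans (Cong.of_eq ?_))
  · ring
  · ring

lemma W_prime (h2 : p ≠ 2) :
    Cong p 4 (G (p - 1) (-(p : ℚ)) * u (p - 1)) (1 + p ^ 2 * Gh p h + p ^ 3 * K h) := by
  have h2I : (2 : ℚ) ∈ PInt p := by exact_mod_cast natCast_mem p 2
  have hG := Gh_mem hh
  have hK := K_mem hh
  have hpI := natCast_mem p p
  have hx : Cong p 2 (-(p : ℚ) * (-(p : ℚ) - p)) 0 := ⟨2, h2I, by ring⟩
  have h7 := G_prime_expand hh (-(p : ℚ)) hx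
  have e1 : 1 + -(p : ℚ) * (-(p : ℚ) - p) * Gh p h = 1 + 2 * p ^ 2 * Gh p h := by ring
  rw [e1] at h7
  have hu := u_prime hh h2
  have m1 : 1 + 2 * (p : ℚ) ^ 2 * Gh p h ∈ PInt p :=
    add_mem (one_mem _) (mul_mem (mul_mem h2I (pow_mem hpI 2)) hG)
  have m2 : 1 - (p : ℚ) ^ 2 * Gh p h + p ^ 3 * K h ∈ PInt p :=
    add_mem (sub_mem (one_mem _) (mul_mem (pow_mem hpI 2) hG)) (mul_mem (pow_mem hpI 3) hK)
  refine (Cong.mul (hu.mem_of m2) m1 h7 hu).trans ?_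
  refine ⟨-(2 * Gh p h ^ 2) + 2 * p * (Gh p h * K h), ?_, ?_⟩
  · exact add_mem (neg_mem (mul_mem h2I (pow_mem hG 2))) (mul_mem (mul_mem h2I hpI) (mul_mem hG hK))
  · ring

/-- `6 h_2 ≡ -7 p h_3 (mod p^2)` -/
lemma hs_rel (h2 : p ≠ 2) : Cong p 2 (6 * hs h 2) (-(7 * p * hs h 3)) := by
  have hhalf := half_mem (p := p) h2
  have h1 := sum_low_high hh (fun t : ℕ => ((t : ℚ)⁻¹) ^ 2)
  rw [sum_even_odd hh (fun t : ℕ => ((t : ℚ)⁻¹) ^ 2)] at h1
  have hleft : Cong p 2 (∑ b ∈ Ico 1 (h + 1), ((((2 * b : ℕ) : ℚ)⁻¹) ^ 2 + (((p - 2 * b : ℕ) : ℚ)⁻¹) ^ 2))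
      ((1 / 4) * hs h 2 + (1 / 4) * (hs h 2 + p * hs h 3)) := by
    rw [hs, hs, mul_sum, mul_sum, ← sum_add_distrib, mul_sum, ← sum_add_distrib]
    apply Cong.sum
    intro b hb
    have hb' := mem_Ico.1 hb
    have h3 := low_ne_zero hh hb
    apply Cong.add
    · apply Cong.of_eq
      push_cast
      field_simp
      norm_num
    · rw [Nat.cast_sub (by omega)]
      push_cast
      exact inv_sq_cong hh hb h2
  have hright : Cong p 2 (∑ t ∈ Ico 1 (h + 1), (((t : ℚ)⁻¹) ^ 2 + (((p - t : ℕ) : ℚ)⁻¹) ^ 2))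
      (hs h 2 + (hs h 2 + 2 * p * hs h 3)) := by
    rw [hs, hs, mul_sum, ← sum_add_distrib, ← sum_add_distrib]
    apply Cong.sum
    intro b hb
    have hb' := mem_Ico.1 hb
    have h3 := low_ne_zero hh hb
    have h4 := psub_ne_zero hh hb
    apply Cong.add (Cong.refl _ _)
    rw [Nat.cast_sub (by omega)]
    refine ⟨(3 * b - 2 * p) * (((b : ℚ)⁻¹) ^ 3 * (((p : ℚ) - b)⁻¹) ^ 2), ?_, ?_⟩
    · refine mul_mem (sub_mem (mul_mem ?_ (natCast_mem p b)) (mul_mem ?_ (natCast_mem p p)))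
        (mul_mem (pow_mem (inv_low_mem hh hb) 3) (pow_mem (inv_psub_mem hh hb) 2))
      · exact_mod_cast natCast_mem p 3
      · exact_mod_cast natCast_mem p 2
    · field_simp
      ring
  have h3 : Cong p 2 ((1 / 4) * hs h 2 + (1 / 4) * (hs h 2 + p * hs h 3))
      (hs h 2 + (hs h 2 + 2 * p * hs h 3)) := by
    refine hleft.symm.trans ?_
    rw [h1]
    exact hright
  have h4 : (4 : ℚ) ∈ PInt p := by exact_mod_cast natCast_mem p 4
  obtain ⟨z, hz, e⟩ := h3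
  exact ⟨-(4 * z), neg_mem (mul_mem h4 hz), by linear_combination (-4 : ℚ) * e⟩

end primes

end Pool.Agent.Work.MP_950ea9_nt
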