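import Pool.Agent.Work.MP_950ea9_nt.Identity
import Pool.Agent.Work.MP_950ea9_nt.Cong

/-! # MP_950ea9_nt: the passage from `p^(r+1)` to `p^r` -/

set_option linter.unusedSectionVars false

open Finset

namespace Pool.Agent.Work.MP_950ea9_nt

variable {p : ℕ} [hp : Fact p.Prime]

lemma G_succ_add_one (n : ℕ) (x : ℚ) : G (n + 1) (x + 1) = G n x * (-x / ((n : ℚ) + 1)) := by
  induction n with
  | zero => simp [G_zero, G_succ]
  | succ n ih =>
    rw [G_succ, ih, G_succ]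
    have h : ((n : ℚ) + 1) ≠ 0 := by positivity
    have h2 : ((n : ℚ) + 1 + 1) ≠ 0 := by positivity
    push_cast
    field_simp
    ring

lemma G_pascal (n : ℕ) (x : ℚ) : G (n + 1) (x + 1) = G (n + 1) x - G n x := by
  rw [G_succ_add_one, G_succ]
  have h : ((n : ℚ) + 1) ≠ 0 := by positivity
  field_simp
  ring

lemma not_dvd_four (h2 : p ≠ 2) (n : ℕ) : ¬ p ∣ 4 ^ n := by
  intro h
  have h1 := hp.out.dvd_of_dvd_pow h
  have h3 : p ∣ 2 ^ 2 := by simpa using h1
  exact h2 ((Nat.prime_dvd_prime_iff_eq hp.out Nat.prime_two).1 (hp.out.dvd_of_dvd_pow h3))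

lemma half_mem (h2 : p ≠ 2) : (1 / 2 : ℚ) ∈ PInt p := by
  have : ¬ p ∣ 2 := fun h => h2 ((Nat.prime_dvd_prime_iff_eq hp.out Nat.prime_two).1 h)
  have h := inv_natCast_mem this
  simpa using h

lemma G_half_mem (h2 : p ≠ 2) (i : ℕ) : ∀ n : ℕ, G n ((2 * i + 1) / 2) ∈ PInt p := by
  induction i with
  | zero =>
    intro n
    have h := G_half n
    have e : ((2 * ((0 : ℕ) : ℚ) + 1) / 2) = 1 / 2 := by norm_num
    rw [e, h, div_eq_mul_inv]
    apply mul_mem (natCast_mem p _)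
    have := inv_natCast_mem (not_dvd_four h2 n)
    exact_mod_cast this
  | succ i ih =>
    intro n
    have e : ((2 * ((i + 1 : ℕ) : ℚ) + 1) / 2) = (2 * (i : ℚ) + 1) / 2 + 1 := by push_cast; ring
    rw [e]
    cases n with
    | zero => rw [G_zero]; exact one_mem _
    | succ n =>
      rw [G_pascal]
      exact sub_mem (ih _) (ih _)

lemma G_eq_Ico (n : ℕ) (x : ℚ) : G n x = ∏ t ∈ Ico 1 (n + 1), (1 - x / (t : ℚ)) := by
  rw [prod_Ico_eq_prod_range, G]
  apply prod_congr rfl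
  intro t _
  push_cast
  ring

/-- numbers below `p*M` prime to `p` -/
def U (p M : ℕ) : Finset ℕ := (range (p * M)).filter (fun t => ¬ p ∣ t)

/-- the part of `G` over indices prime to `p` -/
def Gu (p M : ℕ) (x : ℚ) : ℚ := ∏ t ∈ U p M, (1 - x / (t : ℚ))

lemma G_split {M : ℕ} (hM : 1 ≤ M) (x : ℚ) :
    G (p * M - 1) (p * x) = Gu p M (p * x) * G (M - 1) x := by
  have hpM : 1 ≤ p * M := Nat.mul_pos hp.out.pos hM
  rw [G_eq_Ico, G_eq_Ico, Gu, Nat.sub_add_cancel hpM, Nat.sub_add_cancel hM]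
  have hsplit : Ico 1 (p * M) = U p M ∪ (Ico 1 M).image (fun t => p * t) := by
    ext t
    simp only [U, mem_Ico, mem_union, mem_filter, mem_range, mem_image]
    constructor
    · rintro ⟨h1, h2⟩
      by_cases hd : p ∣ t
      · right
        obtain ⟨s, rfl⟩ := hd
        refine ⟨s, ⟨?_, ?_⟩, rfl⟩
        · rcases Nat.eq_zero_or_pos s with h | h
          · subst h; simp at h1
          · exact h
        · exact lt_of_mul_lt_mul_left h2 (Nat.zero_le _)
      · left; exact ⟨h2, hd⟩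
    · rintro (⟨h1, h2⟩ | ⟨s, ⟨h1, h2⟩, rfl⟩)
      · refine ⟨?_, h1⟩
        rcases Nat.eq_zero_or_pos t with h | h
        · subst h; simp at h2
        · exact h
      · exact ⟨Nat.mul_pos hp.out.pos h1, (Nat.mul_lt_mul_left hp.out.pos).2 h2⟩
  have hdisj : Disjoint (U p M) ((Ico 1 M).image (fun t => p * t)) := by
    rw [disjoint_left]
    intro t ht ht'
    simp only [U, mem_filter, mem_image] at ht ht'
    obtain ⟨s, _, rfl⟩ := ht'
    exact ht.2 (Dvd.intro s rfl)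
  rw [hsplit, prod_union hdisj, prod_image]
  · congr 1
    apply prod_congr rfl
    intro t ht
    have ht1 : 1 ≤ t := (mem_Ico.1 ht).1
    have h0 : (t : ℚ) ≠ 0 := by positivity
    have hp0 : (p : ℚ) ≠ 0 := p_ne_zero
    push_cast
    field_simp
  · intro a _ b _ hab
    exact Nat.eq_of_mul_eq_mul_left hp.out.pos hab

lemma U_reflect (M : ℕ) (f : ℕ → ℚ) :
    ∑ t ∈ U p M, f (p * M - t) = ∑ t ∈ U p M, f t := by
  apply sum_nbij' (fun t => p * M - t) (fun t => p * M - t)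
  · intro t ht
    simp only [U, mem_filter, mem_range] at ht ⊢
    have h0 : 0 < t := Nat.pos_of_ne_zero (by rintro rfl; simp at ht)
    refine ⟨by omega, ?_⟩
    intro h
    apply ht.2
    have := (Nat.dvd_sub_iff_right (le_of_lt ht.1) (Dvd.intro M rfl)).1 h
    exact this
  · intro t ht
    simp only [U, mem_filter, mem_range] at ht ⊢
    have h0 : 0 < t := Nat.pos_of_ne_zero (by rintro rfl; simp at ht)
    refine ⟨by omega, ?_⟩
    intro h
    apply ht.2
    have := (Nat.dvd_sub_iff_right (le_of_lt ht.1) (Dvd.intro M rfl)).1 h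
    exact this
  · intro t ht
    simp only [U, mem_filter, mem_range] at ht
    omega
  · intro t ht
    simp only [U, mem_filter, mem_range] at ht
    omega
  · intro t _
    rfl

/-- the harmonic sum over units below `p^(r+1)` is divisible by `p^(r+1)` -/
lemma unit_harmonic (h2 : p ≠ 2) (r : ℕ) :
    Cong p (r + 1) (∑ t ∈ U p (p ^ r), ((t : ℚ))⁻¹) 0 := by
  have h1 : ∑ t ∈ U p (p ^ r), ((t : ℚ))⁻¹
      = (1 / 2) * ∑ t ∈ U p (p ^ r), (((t : ℚ))⁻¹ + (((p * p ^ r - t : ℕ) : ℚ))⁻¹) := by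
    rw [sum_add_distrib, U_reflect (p ^ r) (fun t => ((t : ℚ))⁻¹)]
    ring
  have h3 : ∀ t ∈ U p (p ^ r), ((t : ℚ))⁻¹ + (((p * p ^ r - t : ℕ) : ℚ))⁻¹
      = (p : ℚ) ^ (r + 1) * (((t : ℚ))⁻¹ * (((p * p ^ r - t : ℕ) : ℚ))⁻¹) := by
    intro t ht
    simp only [U, mem_filter, mem_range] at ht
    have ht0 : t ≠ 0 := by rintro rfl; simp at ht
    have h0 : (t : ℚ) ≠ 0 := by exact_mod_cast ht0
    have hc : (((p * p ^ r - t : ℕ) : ℚ)) = (p : ℚ) ^ (r + 1) - t := by
      rw [Nat.cast_sub (le_of_lt ht.1)]; push_cast; ring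
    have h4 : (p : ℚ) ^ (r + 1) - t ≠ 0 := by
      rw [← hc]
      have : p * p ^ r - t ≠ 0 := by omega
      exact_mod_cast this
    rw [hc]
    field_simp
    ring
  refine ⟨(1 / 2) * ∑ t ∈ U p (p ^ r), (((t : ℚ))⁻¹ * (((p * p ^ r - t : ℕ) : ℚ))⁻¹), ?_, ?_⟩
  · apply mul_mem (half_mem h2)
    apply sum_mem
    intro t ht
    simp only [U, mem_filter, mem_range] at ht
    apply mul_mem (inv_natCast_mem ht.2)
    apply inv_natCast_mem
    intro h
    exact ht.2 ((Nat.dvd_sub_iff_right (le_of_lt ht.1) (Dvd.intro _ rfl)).1 h)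
  · rw [h1, sum_congr rfl h3, ← mul_sum]
    ring

lemma Gu_cong (h2 : p ≠ 2) {r j : ℕ} (hj : j ≤ r + 1) {x : ℚ} (hx : Cong p j x 0) :
    Cong p (2 * j) (Gu p (p ^ r) x) 1 := by
  have h1 : Gu p (p ^ r) x = ∏ t ∈ U p (p ^ r), (1 + (-x) * ((t : ℚ))⁻¹) := by
    rw [Gu]
    apply prod_congr rfl
    intro t _
    rw [div_eq_mul_inv]; ring
  rw [h1]
  have hx' : Cong p j (-x) 0 := by simpa using hx.neg
  have h3 := prod_expand (U p (p ^ r)) (fun t : ℕ => ((t : ℚ))⁻¹) (-x) hx' (by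
    intro t ht
    simp only [U, mem_filter, mem_range] at ht
    exact inv_natCast_mem ht.2)
  refine h3.trans ?_
  obtain ⟨z, hz, e⟩ := hx'
  obtain ⟨w, hw, e'⟩ := (unit_harmonic h2 r).mono hj
  rw [sub_zero] at e e'
  refine ⟨z * w, mul_mem hz hw, ?_⟩
  rw [e, e']
  ring

lemma G_top_cong (h2 : p ≠ 2) (r i : ℕ) (hi : i < p ^ r) :
    Cong p r (((2 * p ^ r - (2 * i + 1) : ℕ) : ℚ) * G (p ^ r - 1) ((2 * i + 1) / 2)) 0 := by
  have hN : 1 ≤ p ^ r := Nat.one_le_pow _ _ hp.out.pos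
  have h := G_succ (p ^ r - 1) ((2 * (i : ℚ) + 1) / 2)
  rw [Nat.sub_add_cancel hN] at h
  have hc : (((p ^ r - 1 : ℕ) : ℚ)) + 1 = (p : ℚ) ^ r := by
    rw [Nat.cast_sub hN]; push_cast; ring
  rw [hc] at h
  refine ⟨2 * G (p ^ r) ((2 * i + 1) / 2), mul_mem (natCast_mem p 2) (G_half_mem h2 i _), ?_⟩
  rw [h]
  have hp0 : (p : ℚ) ^ r ≠ 0 := pow_ne_zero _ p_ne_zero
  rw [Nat.cast_sub (by omega)]
  push_cast
  field_simp
  ring

lemma G_cong_zero (h2 : p ≠ 2) {r i : ℕ} (hi : i < p ^ r) (hd : ¬ p ∣ 2 * i + 1) :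
    Cong p r (G (p ^ r - 1) ((2 * i + 1) / 2)) 0 := by
  rcases Nat.eq_zero_or_pos r with rfl | hr
  · exact ⟨G 0 ((2 * (i : ℚ) + 1) / 2), G_half_mem h2 i _, by simp⟩
  have h := G_top_cong h2 r i hi
  have hdd : ¬ p ∣ (2 * p ^ r - (2 * i + 1)) := by
    intro h'
    apply hd
    refine (Nat.dvd_sub_iff_right (by omega) ?_).1 h'
    exact Dvd.dvd.mul_left (dvd_pow_self p hr.ne') 2
  have hne : ((2 * p ^ r - (2 * i + 1) : ℕ) : ℚ) ≠ 0 := by
    have : 2 * p ^ r - (2 * i + 1) ≠ 0 := by omega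
    exact_mod_cast this
  apply Cong.cancel hne (inv_natCast_mem hdd)
  rw [mul_zero]
  exact h

lemma G_cong_zero' (h2 : p ≠ 2) {r i : ℕ} (hi : i < p ^ r) (hne : 2 * i + 1 ≠ p ^ r) :
    Cong p 1 (G (p ^ r - 1) ((2 * i + 1) / 2)) 0 := by
  have h := G_top_cong h2 r i hi
  have hq : 2 * p ^ r - (2 * i + 1) ≠ 0 := by omega
  obtain ⟨v, w, hw, hvw⟩ := Nat.exists_eq_pow_mul_and_not_dvd hq p hp.out.ne_one
  have hv : v < r := by
    by_contra hcon
    push Not at hcon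
    have h1 : p ^ r ∣ 2 * p ^ r - (2 * i + 1) := by
      rw [hvw]
      exact Dvd.dvd.mul_right (pow_dvd_pow p hcon) w
    have h3 : p ^ r ∣ 2 * i + 1 := (Nat.dvd_sub_iff_right (by omega) (Dvd.intro_left 2 rfl)).1 h1
    obtain ⟨c, hc⟩ := h3
    have hc2 : c < 2 := by
      by_contra hc2
      push Not at hc2
      have : p ^ r * 2 ≤ p ^ r * c := Nat.mul_le_mul_left _ hc2
      omega
    interval_cases c
    · omega
    · omega
  rw [hvw] at h
  have hr : r = v + (r - v) := by omega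
  rw [hr] at h
  have h4 : Cong p (v + (r - v)) ((p : ℚ) ^ v * ((w : ℚ) * G (p ^ r - 1) ((2 * i + 1) / 2)))
      ((p : ℚ) ^ v * 0) := by
    rw [← hr] at h ⊢
    rw [mul_zero, ← mul_assoc]
    push_cast at h
    exact h
  have h5 := Cong.unscale h4
  have hw0 : (w : ℚ) ≠ 0 := by
    have : w ≠ 0 := by rintro rfl; simp at hw
    exact_mod_cast this
  have h6 : Cong p (r - v) (G (p ^ r - 1) ((2 * i + 1) / 2)) 0 := by
    apply Cong.cancel hw0 (inv_natCast_mem hw)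
    rw [mul_zero]; exact h5
  exact h6.mono (by omega)

/-- the sum of squares, passage from `p^(r+1)` to `p^r`, `r ≥ 1` -/
lemma u_step (h2 : p ≠ 2) {r : ℕ} (hr : 1 ≤ r) :
    Cong p 4 (u (p ^ (r + 1) - 1)) (u (p ^ r - 1)) := by
  have hN : 1 ≤ p ^ (r + 1) := Nat.one_le_pow _ _ hp.out.pos
  have hM : 1 ≤ p ^ r := Nat.one_le_pow _ _ hp.out.pos
  rw [u, u, Nat.sub_add_cancel hN, Nat.sub_add_cancel hM]
  obtain ⟨h, hh⟩ : ∃ h, p = 2 * h + 1 := by
    rcases hp.out.eq_two_or_odd' with h | h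
    · exact absurd h h2
    · exact h
  rw [← sum_filter_add_sum_filter_not (range (p ^ (r + 1))) (fun i => p ∣ 2 * i + 1)]
  have hzero : Cong p 4 (∑ i ∈ (range (p ^ (r + 1))).filter (fun i => ¬ p ∣ 2 * i + 1),
      (G (p ^ (r + 1) - 1) ((2 * i + 1) / 2)) ^ 2) 0 := by
    have : Cong p 4 (∑ i ∈ (range (p ^ (r + 1))).filter (fun i => ¬ p ∣ 2 * i + 1),
      (G (p ^ (r + 1) - 1) ((2 * i + 1) / 2)) ^ 2)
      (∑ i ∈ (range (p ^ (r + 1))).filter (fun i => ¬ p ∣ 2 * i + 1), 0) := by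
      apply Cong.sum
      intro i hi
      rw [mem_filter, mem_range] at hi
      exact (Cong.sq_zero (G_cong_zero h2 hi.1 hi.2)).mono (by omega)
    simpa using this
  have himg : (range (p ^ (r + 1))).filter (fun i => p ∣ 2 * i + 1)
      = (range (p ^ r)).image (fun i => p * i + h) := by
    ext i
    simp only [mem_filter, mem_range, mem_image]
    constructor
    · rintro ⟨h1, h3⟩
      obtain ⟨c, hc⟩ := h3
      have hcodd : c % 2 = 1 := by
        rcases Nat.even_or_odd c with hc' | hc'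
        · obtain ⟨d, rfl⟩ := hc'
          exfalso
          have : 2 * i + 1 = 2 * (p * d) := by rw [hc]; ring
          omega
        · exact Nat.odd_iff.1 hc'
      obtain ⟨d, rfl⟩ : ∃ d, c = 2 * d + 1 := ⟨c / 2, by omega⟩
      refine ⟨d, ?_, ?_⟩
      · have h4 : p * (2 * d + 1) < p * (2 * p ^ r) := by
          rw [← hc]
          have : p * (2 * p ^ r) = 2 * p ^ (r + 1) := by ring
          rw [this]; omega
        have := lt_of_mul_lt_mul_left h4 (Nat.zero_le _)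
        omega
      · have : 2 * i + 1 = 2 * (p * d) + p := by rw [hc]; ring
        omega
    · rintro ⟨d, hd, rfl⟩
      constructor
      · have h4 : p * (d + 1) ≤ p * p ^ r := Nat.mul_le_mul_left _ hd
        have h5 : p ^ (r + 1) = p * p ^ r := by ring
        rw [h5]
        have : p * (d + 1) = p * d + p := by ring
        omega
      · refine ⟨2 * d + 1, ?_⟩
        have : 2 * (p * d + h) + 1 = 2 * (p * d) + (2 * h + 1) := by ring
        rw [this, ← hh]; ring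
  rw [himg, sum_image (by
    intro a _ b _ hab
    have : p * a = p * b := by simpa using hab
    exact Nat.eq_of_mul_eq_mul_left hp.out.pos this)]
  have hmain : Cong p 4 (∑ i ∈ range (p ^ r), (G (p ^ (r + 1) - 1) ((2 * ((p * i + h : ℕ) : ℚ) + 1) / 2)) ^ 2)
      (∑ i ∈ range (p ^ r), (G (p ^ r - 1) ((2 * i + 1) / 2)) ^ 2) := by
    apply Cong.sum
    intro i hi
    have hi' := mem_range.1 hi
    have hx : ((2 * ((p * i + h : ℕ) : ℚ) + 1) / 2) = (p : ℚ) * ((2 * (i : ℚ) + 1) / 2) := by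
      have hpq : (p : ℚ) = 2 * h + 1 := by exact_mod_cast hh
      push_cast
      rw [hpq]; ring
    have hpp : p ^ (r + 1) = p * p ^ r := by ring
    rw [hx, hpp, G_split hM, mul_pow]
    have hI : (2 * (i : ℚ) + 1) / 2 ∈ PInt p := by
      rw [show (2 * (i : ℚ) + 1) / 2 = (1 / 2) * ((2 * i + 1 : ℕ) : ℚ) by push_cast; ring]
      exact mul_mem (half_mem h2) (natCast_mem p _)
    have hGI := G_half_mem h2 i (p ^ r - 1)
    by_cases hc : 2 * i + 1 = p ^ r
    · -- central term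
      have hx2 : Cong p (r + 1) ((p : ℚ) * ((2 * (i : ℚ) + 1) / 2)) 0 := by
        refine ⟨1 / 2, half_mem h2, ?_⟩
        have : (2 * (i : ℚ) + 1) = (p : ℚ) ^ r := by exact_mod_cast hc
        rw [this]; ring
      have h3 : Cong p (2 * (r + 1)) _ _ := Gu_cong h2 le_rfl hx2
      have h4 := (h3.mono (show 4 ≤ 2 * (r + 1) by omega)).sq (one_mem _)
      have h5 := Cong.mul_right (pow_mem hGI 2) h4
      simpa using h5
    · have hx2 : Cong p 1 ((p : ℚ) * ((2 * (i : ℚ) + 1) / 2)) 0 := ⟨_, hI, by ring⟩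
      have h3 : Cong p (2 * 1) _ _ := Gu_cong h2 (show 1 ≤ r + 1 by omega) hx2
      have h4 := h3.sq (one_mem _)
      have h5 := G_cong_zero' h2 hi' hc
      obtain ⟨z, hz, e⟩ := h4
      obtain ⟨w, hw, e'⟩ := Cong.sq_zero h5
      refine ⟨z * w, mul_mem hz hw, ?_⟩
      rw [sub_zero] at e'
      have : (Gu p (p ^ r) ((p : ℚ) * ((2 * (i : ℚ) + 1) / 2))) ^ 2 = 1 + (p : ℚ) ^ (2 * 1) * z := by
        linear_combination e
      rw [this, e']
      ring
  have := hmain.add hzero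
  simpa using this

/-- the factor `C(2N-1,N-1)`, passage from `p^(r+1)` to `p^r`, `r ≥ 1` -/
lemma b_step (h2 : p ≠ 2) {r : ℕ} (hr : 1 ≤ r) :
    Cong p 4 (G (p ^ (r + 1) - 1) (-((p : ℚ) ^ (r + 1)))) (G (p ^ r - 1) (-((p : ℚ) ^ r))) := by
  have hM : 1 ≤ p ^ r := Nat.one_le_pow _ _ hp.out.pos
  have hpp : p ^ (r + 1) = p * p ^ r := by ring
  have hx : -((p : ℚ) ^ (r + 1)) = (p : ℚ) * (-((p : ℚ) ^ r)) := by ring
  rw [hx, hpp, G_split hM]
  have hI : G (p ^ r - 1) (-((p : ℚ) ^ r)) ∈ PInt p := by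
    have h := G_neg (p ^ r - 1)
    have hc : (((p ^ r - 1 : ℕ) : ℚ)) + 1 = (p : ℚ) ^ r := by
      rw [Nat.cast_sub hM]; push_cast; ring
    rw [hc] at h
    rw [h, div_eq_mul_one_div]
    exact mul_mem (natCast_mem p _) (half_mem h2)
  have hx2 : Cong p (r + 1) ((p : ℚ) * (-((p : ℚ) ^ r))) 0 :=
    ⟨-1, neg_mem (one_mem _), by ring⟩
  have h3 : Cong p (2 * (r + 1)) _ _ := Gu_cong h2 le_rfl hx2
  have h4 := h3.mono (show 4 ≤ 2 * (r + 1) by omega)
  have h5 := Cong.mul_right hI h4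
  simpa using h5

end Pool.Agent.Work.MP_950ea9_nt
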